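import Mathlib

set_option autoImplicit false
set_option linter.unusedSectionVars false

/-!
# Stack layouts of planar lattices with O(log n) stacks: the abstract step

A state is the part of the layout which is not to the left of a maximal chain `C`.
-/

namespace Pool.Agent.Helper80.Log

/-- Types of an edge of the chain: short, or long with a colour and a fixed tail, or long with a
colour and a fixed head. -/
inductive Ty (K : ℕ) where
  | sh : Ty K
  | al : Fin K → Ty K
  | om : Fin K → Ty K

/-- Colours of the edges: unused, used and short, used and long. -/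
inductive Col (K : ℕ) where
  | un : Col K
  | st : Col K
  | lg : Fin K → Col K

variable {V : Type} [Fintype V] {K : ℕ}

/-- The own colour of a type. -/
def own : Ty K → Finset (Fin K)
  | .sh => ∅
  | .al κ => {κ}
  | .om κ => {κ}

/-- Exchange of the two long types. -/
def flipTy : Ty K → Ty K
  | .sh => .sh
  | .al κ => .om κ
  | .om κ => .al κ

theorem own_flip (t : Ty K) : own (flipTy t) = own t := by
  cases t <;> rfl

/-- The elements of `W` strictly between `s` and `t`. -/
def Gap (W : V → Prop) (β : V → ℝ) (s t v : V) : Prop := W v ∧ β s < β v ∧ β v < β t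

/-- Their number. -/
noncomputable def N (W : V → Prop) (β : V → ℝ) (s t : V) : ℕ := by
  classical exact (Finset.univ.filter (fun v => Gap W β s t v)).card

/-- The colour of an edge of the chain, given its type and the number of elements which are
inserted between its ends. -/
def colC : Ty K → ℕ → Col K
  | _, 0 => .un
  | .sh, _ + 1 => .st
  | .al κ, _ + 1 => .lg κ
  | .om κ, _ + 1 => .lg κ

theorem colC_flip (t : Ty K) (n : ℕ) : colC (flipTy t) n = colC t n := by
  cases n <;> cases t <;> rfl

/-- Edges of the chain. -/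
def EC (C : V → Prop) (E : V → V → Prop) (s t : V) : Prop := E s t ∧ C s ∧ C t

/-- Other edges. -/
def EN (C : V → Prop) (E : V → V → Prop) (s t : V) : Prop := E s t ∧ ¬ (C s ∧ C t)

/-- Admissible types and forbidden colours. -/
structure Adm (L : ℕ) (W C : V → Prop) (E : V → V → Prop) (β : V → ℝ) (ty : V → V → Ty K)
    (F : V → V → Finset (Fin K)) (G : V → Finset (Fin K)) : Prop where
  h1 : ∀ s t, EC C E s t → (N W β s t + 1) * 2 ^ (F s t ∪ own (ty s t)).card ≤ 2 ^ L
  h2 : ∀ y, C y → (G y).card < L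
  h3 : ∀ s t κ, EC C E s t → ty s t = .al κ → κ ∉ F s t ∧ κ ∉ G s
  h4 : ∀ s t κ, EC C E s t → ty s t = .om κ → κ ∉ F s t ∧ κ ∉ G t

/-- Requirements for the colouring. -/
structure Req (W C : V → Prop) (E : V → V → Prop) (β : V → ℝ) (ty : V → V → Ty K)
    (F : V → V → Finset (Fin K)) (G : V → Finset (Fin K)) (c : V → V → Col K) : Prop where
  ce : ∀ s t, EC C E s t → c s t = colC (ty s t) (N W β s t)
  c0 : ∀ p q p' q', E p q → E p' q' → c p q = c p' q' →
    ¬ (β p < β p' ∧ β p' < β q ∧ β q < β q')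
  r1 : ∀ p q κ s t, EN C E p q → c p q = .lg κ → EC C E s t →
    (Gap W β s t p ∨ Gap W β s t q) → κ ∉ F s t
  r2 : ∀ p q κ, EN C E p q → c p q = .lg κ → (C p → κ ∉ G p) ∧ (C q → κ ∉ G q)
  r3 : ∀ p q κ s t, EN C E p q → c p q = .lg κ → EC C E s t →
    (Gap W β s t p ∨ Gap W β s t q) → ty s t = .al κ → p = s
  r4 : ∀ p q κ s t, EN C E p q → c p q = .lg κ → EC C E s t →
    (Gap W β s t p ∨ Gap W β s t q) → ty s t = .om κ → q = t
  r5 : ∀ p q s t, EN C E p q → c p q = .st → EC C E s t →
    (Gap W β s t p ∨ Gap W β s t q) → β s ≤ β p ∧ β q ≤ β t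
  r6 : ∀ p q κ s t, EN C E p q → c p q = .st → EC C E s t →
    (Gap W β s t p ∨ Gap W β s t q) → ty s t = .al κ → p ≠ s
  r7 : ∀ p q κ s t, EN C E p q → c p q = .st → EC C E s t →
    (Gap W β s t p ∨ Gap W β s t q) → ty s t = .om κ → q ≠ t

/-- Every admissible choice has a colouring. -/
def Ext (K L : ℕ) (W C : V → Prop) (E : V → V → Prop) (β : V → ℝ) : Prop :=
  ∀ (ty : V → V → Ty K) (F : V → V → Finset (Fin K)) (G : V → Finset (Fin K)),
    Adm L W C E β ty F G → ∃ c, Req W C E β ty F G c

/-! ### Duality -/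

theorem gap_neg (W : V → Prop) (β : V → ℝ) (s t v : V) :
    Gap W (fun x => -β x) s t v ↔ Gap W β t s v := by
  unfold Gap
  constructor
  · rintro ⟨h1, h2, h3⟩
    exact ⟨h1, by linarith, by linarith⟩
  · rintro ⟨h1, h2, h3⟩
    exact ⟨h1, by linarith, by linarith⟩

theorem N_neg (W : V → Prop) (β : V → ℝ) (s t : V) : N W (fun x => -β x) s t = N W β t s := by
  classical
  unfold N
  apply congrArg Finset.card
  ext v
  simp only [Finset.mem_filter, Finset.mem_univ, true_and]
  exact gap_neg W β s t v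

theorem Ext.dual {L : ℕ} {W C : V → Prop} {E : V → V → Prop} {β : V → ℝ}
    (h : Ext K L W C E β) : Ext K L W C (fun p q => E q p) (fun x => -β x) := by
  intro ty F G hA
  have hEC : ∀ s t, EC C (fun p q => E q p) s t ↔ EC C E t s := by
    intro s t
    unfold EC
    tauto
  have hEN : ∀ s t, EN C (fun p q => E q p) s t ↔ EN C E t s := by
    intro s t
    unfold EN
    tauto
  have hAd : Adm L W C E β (fun s t => flipTy (ty t s)) (fun s t => F t s) G := by
    refine ⟨?_, hA.h2, ?_, ?_⟩
    · intro s t hst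
      have := hA.h1 t s ((hEC t s).mpr hst)
      rw [N_neg] at this
      simp only [own_flip]
      exact this
    · intro s t κ hst hty
      have h1 : ty t s = .om κ := by
        cases hh : ty t s <;> rw [hh] at hty <;> simp_all [flipTy]
      exact hA.h4 t s κ ((hEC t s).mpr hst) h1
    · intro s t κ hst hty
      have h1 : ty t s = .al κ := by
        cases hh : ty t s <;> rw [hh] at hty <;> simp_all [flipTy]
      exact hA.h3 t s κ ((hEC t s).mpr hst) h1
  obtain ⟨c, hc⟩ := h _ _ _ hAd
  have hg : ∀ s t p q, (Gap W (fun x => -β x) s t p ∨ Gap W (fun x => -β x) s t q) →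
      (Gap W β t s q ∨ Gap W β t s p) := by
    intro s t p q h1
    rw [gap_neg, gap_neg] at h1
    exact h1.symm
  refine ⟨fun p q => c q p, ?_, ?_, ?_, ?_, ?_, ?_, ?_, ?_, ?_⟩
  · intro s t hst
    have := hc.ce t s ((hEC s t).mp hst)
    rw [colC_flip] at this
    rw [N_neg]
    exact this
  · intro p q p' q' h1 h2 h3 h4
    exact hc.c0 q' p' q p h2 h1 h3.symm ⟨by linarith, by linarith, by linarith⟩
  · intro p q κ s t h1 h2 h3 h4
    exact hc.r1 q p κ t s ((hEN p q).mp h1) h2 ((hEC s t).mp h3) (hg _ _ _ _ h4)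
  · intro p q κ h1 h2
    exact (hc.r2 q p κ ((hEN p q).mp h1) h2).symm
  · intro p q κ s t h1 h2 h3 h4 h5
    exact hc.r4 q p κ t s ((hEN p q).mp h1) h2 ((hEC s t).mp h3) (hg _ _ _ _ h4)
      (by simp only [h5, flipTy])
  · intro p q κ s t h1 h2 h3 h4 h5
    exact hc.r3 q p κ t s ((hEN p q).mp h1) h2 ((hEC s t).mp h3) (hg _ _ _ _ h4)
      (by simp only [h5, flipTy])
  · intro p q s t h1 h2 h3 h4
    have := hc.r5 q p t s ((hEN p q).mp h1) h2 ((hEC s t).mp h3) (hg _ _ _ _ h4)
    exact ⟨by linarith [this.2], by linarith [this.1]⟩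
  · intro p q κ s t h1 h2 h3 h4 h5
    exact hc.r7 q p κ t s ((hEN p q).mp h1) h2 ((hEC s t).mp h3) (hg _ _ _ _ h4)
      (by simp only [h5, flipTy])
  · intro p q κ s t h1 h2 h3 h4 h5
    exact hc.r6 q p κ t s ((hEN p q).mp h1) h2 ((hEC s t).mp h3) (hg _ _ _ _ h4)
      (by simp only [h5, flipTy])

end Pool.Agent.Helper80.Log
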