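import Pool.Agent.Helper80.Log.Step
import Pool.Agent.Helper80.Lat.Bal

set_option autoImplicit false
set_option linter.unusedSectionVars false

/-!
# Stack layouts of planar lattices with O(log n) stacks: induction over the maximal chains
-/

namespace Pool.Agent.Helper80.Log

open Pool.Agent.Helper80.Lat

section Congr

variable {V : Type} [Fintype V] {K L : ℕ} {W C : V → Prop} {E : V → V → Prop} {β β' : V → ℝ}

theorem Ext.congr (h : ∀ v, W v → β v = β' v) (hE : ∀ p q, E p q → W p ∧ W q)
    (hX : Ext K L W C E β) : Ext K L W C E β' := by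
  have hg : ∀ s t v, W s → W t → (Gap W β s t v ↔ Gap W β' s t v) := by
    intro s t v hs ht
    unfold Gap
    constructor
    · rintro ⟨h1, h2, h3⟩
      rw [h s hs, h v h1] at h2
      rw [h t ht, h v h1] at h3
      exact ⟨h1, h2, h3⟩
    · rintro ⟨h1, h2, h3⟩
      rw [← h s hs, ← h v h1] at h2
      rw [← h t ht, ← h v h1] at h3
      exact ⟨h1, h2, h3⟩
  have hN : ∀ s t, EC C E s t → N W β s t = N W β' s t := by
    intro s t hst
    have := hE s t hst.1
    exact N_eq (fun v => hg s t v this.1 this.2)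
  have hg2 : ∀ s t p q, EC C E s t → (Gap W β' s t p ∨ Gap W β' s t q) →
      (Gap W β s t p ∨ Gap W β s t q) := by
    intro s t p q hst h1
    have := hE s t hst.1
    rwa [hg s t p this.1 this.2, hg s t q this.1 this.2]
  intro ty F G hA
  obtain ⟨c, hc⟩ := hX ty F G ⟨fun s t hst => by rw [hN s t hst]; exact hA.h1 s t hst,
    hA.h2, hA.h3, hA.h4⟩
  refine ⟨c, ?_, ?_, ?_, hc.r2, ?_, ?_, ?_, ?_, ?_⟩
  · intro s t hst
    rw [← hN s t hst]
    exact hc.ce s t hst
  · intro p q p' q' h1 h2 h3
    have h4 := hE p q h1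
    have h5 := hE p' q' h2
    rw [← h p h4.1, ← h q h4.2, ← h p' h5.1, ← h q' h5.2]
    exact hc.c0 p q p' q' h1 h2 h3
  · intro p q κ s t h1 h2 h3 h4
    exact hc.r1 p q κ s t h1 h2 h3 (hg2 s t p q h3 h4)
  · intro p q κ s t h1 h2 h3 h4
    exact hc.r3 p q κ s t h1 h2 h3 (hg2 s t p q h3 h4)
  · intro p q κ s t h1 h2 h3 h4
    exact hc.r4 p q κ s t h1 h2 h3 (hg2 s t p q h3 h4)
  · intro p q s t h1 h2 h3 h4
    have h5 := hE p q h1.1
    have h6 := hE s t h3.1
    rw [← h p h5.1, ← h q h5.2, ← h s h6.1, ← h t h6.2]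
    exact hc.r5 p q s t h1 h2 h3 (hg2 s t p q h3 h4)
  · intro p q κ s t h1 h2 h3 h4
    exact hc.r6 p q κ s t h1 h2 h3 (hg2 s t p q h3 h4)
  · intro p q κ s t h1 h2 h3 h4
    exact hc.r7 p q κ s t h1 h2 h3 (hg2 s t p q h3 h4)

end Congr

section Lat

variable {V : Type} [Fintype V] [PartialOrder V] [BoundedOrder V] (R : LR V)

/-- The edges which are not to the left of the chain. -/
def Ed (C : Set V) (p q : V) : Prop := p ⋖ q ∧ wr R C p ∧ wr R C q

/-- Positions of the elements which are not to the left of the chain. -/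
structure Pos (C : Set V) (β : V → ℝ) : Prop where
  inj : ∀ x y, wr R C x → wr R C y → β x = β y → x = y
  mono : ∀ x y, wr R C x → wr R C y → x < y → β x < β y

variable {R} {C : Set V} {β : V → ℝ} {a l r b : V}

theorem Pos.mono' (P : Pos R C β) {x y : V} (hx : wr R C x) (hy : wr R C y) (h : x ≤ y) :
    β x ≤ β y := by
  rcases eq_or_lt_of_le h with h1 | h1
  · rw [h1]
  · exact (P.mono x y hx hy h1).le

theorem Pos.cons (P : Pos R C β) (hC : IsMaxChain (· ≤ ·) C) {s t v : V} (hst : s ⋖ t)
    (hs : s ∈ C) (ht : t ∈ C) (hv : v ∈ C) : ¬ (β s < β v ∧ β v < β t) := by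
  rintro ⟨h1, h2⟩
  rcases chain_total hC hv hs with h3 | h3
  · have := P.mono' (wr_of_mem R hC hv) (wr_of_mem R hC hs) h3
    linarith
  rcases chain_total hC ht hv with h4 | h4
  · have := P.mono' (wr_of_mem R hC ht) (wr_of_mem R hC hv) h4
    linarith
  rcases eq_or_lt_of_le h3 with h5 | h5
  · rw [h5] at h1
    exact lt_irrefl _ h1
  rcases eq_or_lt_of_le h4 with h6 | h6
  · rw [h6] at h2
    exact lt_irrefl _ h2
  exact hst.2 h5 h6

theorem Pos.cov (P : Pos R C β) (hC : IsMaxChain (· ≤ ·) C) {v : V} (hv : wr R C v)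
    (hvC : v ∉ C) : ∃ s t, EC (· ∈ C) (Ed R C) s t ∧ Gap (wr R C) β s t v := by
  have hb : wr R C ⊥ := wr_of_mem R hC hC.bot_mem
  have ht : wr R C ⊤ := wr_of_mem R hC hC.top_mem
  have h1 : (⊥ : V) < v := lt_of_le_of_ne bot_le (fun h => hvC (h ▸ hC.bot_mem))
  have h2 : v < (⊤ : V) := lt_of_le_of_ne le_top (fun h => hvC (h ▸ hC.top_mem))
  obtain ⟨s, hs, hs1, hs2⟩ := max_ex hC (fun z => β z < β v) ⟨⊥, hC.bot_mem, P.mono _ _ hb hv h1⟩
  have h3 : s < ⊤ := by
    apply lt_of_le_of_ne le_top
    intro h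
    have := P.mono _ _ hv ht h2
    rw [h] at hs1
    linarith
  obtain ⟨t, ht1, ht2, _⟩ := succ_ex hC hs hC.top_mem h3
  refine ⟨s, t, ⟨⟨ht2, wr_of_mem R hC hs, wr_of_mem R hC ht1⟩, hs, ht1⟩, hv, hs1, ?_⟩
  by_contra h4
  rcases eq_or_lt_of_le (not_lt.mp h4) with h5 | h5
  · exact hvC (P.inj _ _ (wr_of_mem R hC ht1) hv h5 ▸ ht1)
  · exact absurd ht2.lt (not_lt_of_ge (hs2 t ht1 h5))

theorem out_of' (F : Face R C a l r b) (hC : IsMaxChain (· ≤ ·) C) {p : V} (hp : p ∈ C)
    (h : p ∉ lside C a b) : p ≤ a ∨ b ≤ p := by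
  rcases chain_total hC hp F.ha with h1 | h1
  · exact Or.inl h1
  rcases chain_total hC F.hb hp with h2 | h2
  · exact Or.inr h2
  rcases eq_or_lt_of_le h1 with h3 | h3
  · exact Or.inl h3.ge
  rcases eq_or_lt_of_le h2 with h4 | h4
  · exact Or.inr h4.ge
  · exact absurd ⟨hp, h3, h4⟩ h

/-- Elements below an element of the left side. -/
theorem below_lside (F : Face R C a l r b) (hC : IsMaxChain (· ≤ ·) C) {x y : V}
    (hy : y ∈ lside C a b) (hxy : x < y) (hx : wr R C x) (hxl : x ∉ lside C a b) : x ≤ a := by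
  by_contra hax
  have hxC : x ∉ C := by
    intro h
    rcases out_of' F hC h hxl with h1 | h1
    · exact hax h1
    · exact absurd (h1.trans hxy.le) (not_le_of_gt hy.2.2)
  have hry : ¬ r ≤ y := fun h => absurd hy.2.2 (not_lt_of_ge (F.bmin y hy.1 h))
  have hly := F.l_le hC hy.1 hy.2.1
  have hLyr := F.left_r hC hy.1 hy.2.1 hy.2.2
  by_cases hxa : a ≤ x
  · have hxa' : a < x := lt_of_le_of_ne hxa (fun e => hxC (e ▸ F.ha))
    have hlx : ¬ l ≤ x := fun h => hxC (above_l F hC hx h)
    have hxl : ¬ x ≤ l := by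
      intro h1
      rcases eq_or_lt_of_le h1 with h2 | h2
      · exact hxC (h2 ▸ F.hl)
      · exact F.al.2 hxa' h2
    have hLlx : R.L l x := by
      rcases R.tot _ _ hlx hxl with h1 | h1
      · exact h1
      · exact absurd h1 (hx l F.hl)
    obtain ⟨w, haw, hwx⟩ := cover_below hxa'
    have hwl : w ≠ l := fun e => hlx (e ▸ hwx)
    have hwr : w ≠ r := fun e => hry (e ▸ (hwx.trans hxy.le))
    have h1 : R.L l w := by
      rcases R.tot _ _ (cov_inc F.al haw hwl.symm) (cov_inc haw F.al hwl) with h1 | h1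
      · exact h1
      · exact (R.ne1 (R.trans _ _ _ h1 hLlx) hwx).elim
    have h2 : R.L r w := by
      rcases R.tot _ _ (cov_inc F.ar haw hwr.symm) (cov_inc haw F.ar hwr) with h2 | h2
      · exact h2
      · exact absurd h2 (F.adj w haw h1)
    exact R.ne2 (R.trans _ _ _ hLyr h2) (hwx.trans hxy.le)
  · have h1 : R.L a x := by
      rcases R.tot _ _ hxa hax with h1 | h1
      · exact h1
      · exact absurd h1 (hx a F.ha)
    obtain ⟨t, h2, h3, h4, h5⟩ := R.cross a r x y F.ar.le hxy.le h1 hLyr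
    rcases eq_or_lt_of_le h2 with h6 | h6
    · exact hax (h6 ▸ h4)
    · rcases eq_or_lt_of_le h3 with h7 | h7
      · exact hry (h7 ▸ h5)
      · exact F.ar.2 h6 h7


/-- The facts on a face which are used in the step. -/
structure Pre (R : LR V) (C : Set V) (a l r b c z : V) (β : V → ℝ) : Prop where
  F : Face R C a l r b
  hC : IsMaxChain (· ≤ ·) C
  P : Pos R C β
  P' : Pos R (flipC R C a r b) β
  hc : c ∈ C
  cb : c ⋖ b
  hc' : ∀ y ∈ C, y < b → y ≤ c
  hz : z ∈ flipC R C a r b
  zb : z ⋖ b
  rz : r ≤ z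

theorem wr_iff (F : Face R C a l r b) (hC : IsMaxChain (· ≤ ·) C) (v : V) :
    wr R C v ↔ wr R (flipC R C a r b) v ∨ v ∈ lside C a b := by
  constructor
  · intro h
    by_cases hv : v ∈ lside C a b
    · exact Or.inr hv
    · exact Or.inl (wr_old F hC h hv)
  · rintro (h | h)
    · exact wr_flip F hC h
    · exact wr_of_mem R hC h.1

namespace Pre

variable {c z : V} (Q : Pre R C a l r b c z β)

include Q

theorem hC' : IsMaxChain (· ≤ ·) (flipC R C a r b) := flip_max Q.F Q.hC

theorem ha' : a ∈ flipC R C a r b := Or.inl ⟨Q.F.ha, Or.inl le_rfl⟩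

theorem hb' : b ∈ flipC R C a r b := Or.inl ⟨Q.F.hb, Or.inr le_rfl⟩

theorem hr' : r ∈ flipC R C a r b := Or.inr (r_mem_side Q.F Q.hC)

theorem wa : wr R C a := wr_of_mem R Q.hC Q.F.ha

theorem wb : wr R C b := wr_of_mem R Q.hC Q.F.hb

theorem lb : l < b := by
  rcases eq_or_lt_of_le (Q.F.l_le Q.hC Q.F.hb Q.F.ab) with h4 | h4
  · exact (R.ne2 Q.F.Llr (h4 ▸ Q.F.rb)).elim
  · exact h4

theorem hl : l ∈ lside C a b := ⟨Q.F.hl, Q.F.al.lt, Q.lb⟩

theorem hcl : c ∈ lside C a b :=
  ⟨Q.hc, Q.F.al.lt.trans_le (Q.hc' l Q.F.hl Q.lb), Q.cb.lt⟩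

theorem az : a < z := Q.F.ar.lt.trans_le Q.rz

theorem pos (v : V) (hv : v ∈ lside C a b) : β a < β v ∧ β v < β b :=
  ⟨Q.P.mono _ _ Q.wa (wr_of_mem R Q.hC hv.1) hv.2.1,
    Q.P.mono _ _ (wr_of_mem R Q.hC hv.1) Q.wb hv.2.2⟩

theorem CC (v : V) : v ∈ C ↔ (v ∈ flipC R C a r b ∧ (β v ≤ β a ∨ β b ≤ β v)) ∨
    v ∈ lside C a b := by
  constructor
  · intro h
    by_cases hv : v ∈ lside C a b
    · exact Or.inr hv
    · left
      have h1 := out_of' Q.F Q.hC h hv
      refine ⟨Or.inl ⟨h, h1⟩, ?_⟩
      rcases h1 with h1 | h1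
      · exact Or.inl (Q.P.mono' (wr_of_mem R Q.hC h) Q.wa h1)
      · exact Or.inr (Q.P.mono' Q.wb (wr_of_mem R Q.hC h) h1)
  · rintro (⟨h1 | h1, h2⟩ | h)
    · exact h1.1
    · have h3 : wr R (flipC R C a r b) v := wr_of_mem R Q.hC' (Or.inr h1)
      have h4 := Q.P'.mono _ _ (wr_of_mem R Q.hC' Q.ha') h3 (Q.F.ar.lt.trans_le h1.1)
      have h5 := Q.P'.mono _ _ h3 (wr_of_mem R Q.hC' Q.hb') h1.2.1
      rcases h2 with h2 | h2 <;> linarith
    · exact h.1

theorem new {p q : V} (h : Ed R C p q) (h' : p ∈ lside C a b ∨ q ∈ lside C a b) :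
    p ∈ C ∧ q ∈ C ∧ a ≤ p ∧ q ≤ b ∧ (p = a → q = l) ∧ (q = b → p = c) := by
  obtain ⟨h1, h2, h3, h4⟩ := cov_lside Q.F Q.hC h.1 h.2.1 h.2.2 h'
  refine ⟨h1, h2, h3, h4, ?_, ?_⟩
  · intro h5
    subst h5
    have h6 := Q.F.l_le Q.hC h2 h.1.lt
    rcases eq_or_lt_of_le h6 with h7 | h7
    · exact h7.symm
    · exact absurd h7 (h.1.2 Q.F.al.lt)
  · intro h5
    subst h5
    have h6 := Q.hc' p h1 h.1.lt
    rcases eq_or_lt_of_le h6 with h7 | h7
    · exact h7
    · exact absurd Q.cb.lt (h.1.2 h7)

/-- Slot first. -/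
theorem first (hlast : ∀ w v, w ∈ lside C a b → wr R (flipC R C a r b) v → β v < β b →
    β v < β w)
    (hsize : N (wr R (flipC R C a r b)) β z b ≤ N (wr R (flipC R C a r b)) β a r) :
    Stp (wr R C) (wr R (flipC R C a r b)) (· ∈ C) (· ∈ flipC R C a r b) (· ∈ lside C a b)
      (Ed R C) (Ed R (flipC R C a r b)) β a b l r z where
  inj := Q.P.inj
  WW := wr_iff Q.F Q.hC
  Wd := fun v h1 h2 => lside_not Q.F Q.hC h2 h1
  CC := Q.CC
  CW := fun v hv => wr_of_mem R Q.hC' hv
  EE := fun p q h1 h2 h3 => ⟨h1.1, h2, h3⟩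
  EE' := fun p q h => ⟨⟨h.1, wr_flip Q.F Q.hC h.2.1, wr_flip Q.F Q.hC h.2.2⟩, h.2.1, h.2.2⟩
  EW := fun p q h => ⟨h.2.1, h.2.2⟩
  lt := fun p q h => Q.P.mono p q h.2.1 h.2.2 h.1.lt
  ca := Q.ha'
  cb := Q.hb'
  pos := Q.pos
  last := hlast
  ll := Q.hl
  lmin := fun w hw => Q.P.mono' (wr_of_mem R Q.hC Q.F.hl) (wr_of_mem R Q.hC hw.1)
    (Q.F.l_le Q.hC hw.1 hw.2.1)
  al := ⟨Q.F.al, Q.wa, wr_of_mem R Q.hC Q.F.hl⟩
  new := by
    intro p q h h'
    obtain ⟨h1, h2, h3, h4, h5, h6⟩ := Q.new h h'
    refine ⟨h1, h2, ?_⟩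
    rcases eq_or_lt_of_le h3 with h7 | h7
    · exact Or.inl ⟨h7.symm, h5 h7.symm⟩
    · right
      rintro v hv ⟨h8, h9⟩
      rcases (wr_iff Q.F Q.hC v).mp hv with h10 | h10
      · have hp : p ∈ lside C a b := ⟨h1, h7, h.1.lt.trans_le h4⟩
        have h11 := Q.P.mono' h.2.2 Q.wb h4
        have := hlast p v hp h10 (by linarith)
        linarith
      · exact Q.P.cons Q.hC h.1 h1 h2 h10.1 ⟨h8, h9⟩
  cons := fun s t h1 h2 h3 v hv => Q.P'.cons Q.hC' h1.1 h2 h3 hv
  ar := ⟨Q.F.ar, wr_of_mem R Q.hC' Q.ha', wr_of_mem R Q.hC' Q.hr'⟩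
  cr := Q.hr'
  rb := Q.P'.mono _ _ (wr_of_mem R Q.hC' Q.hr') (wr_of_mem R Q.hC' Q.hb') (Q.F.rb' Q.hC)
  zb := ⟨Q.zb, wr_of_mem R Q.hC' Q.hz, wr_of_mem R Q.hC' Q.hb'⟩
  cz := Q.hz
  az := Q.P'.mono _ _ (wr_of_mem R Q.hC' Q.ha') (wr_of_mem R Q.hC' Q.hz) Q.az
  cov := fun v h1 h2 => Q.P'.cov Q.hC' h1 h2
  size := hsize

/-- Slot last, in the dual form. -/
theorem last (hlast : ∀ w v, w ∈ lside C a b → wr R (flipC R C a r b) v → β a < β v →
    β w < β v)
    (hsize : N (wr R (flipC R C a r b)) β a r ≤ N (wr R (flipC R C a r b)) β z b) :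
    Stp (wr R C) (wr R (flipC R C a r b)) (· ∈ C) (· ∈ flipC R C a r b) (· ∈ lside C a b)
      (fun p q => Ed R C q p) (fun p q => Ed R (flipC R C a r b) q p) (fun v => -β v)
      b a c z r where
  inj := fun x y hx hy h => Q.P.inj x y hx hy (by
    have h1 : -β x = -β y := h
    linarith)
  WW := wr_iff Q.F Q.hC
  Wd := fun v h1 h2 => lside_not Q.F Q.hC h2 h1
  CC := fun v => by
    have h1 := Q.CC v
    have h2 : (-β v ≤ -β b ∨ -β a ≤ -β v) ↔ (β v ≤ β a ∨ β b ≤ β v) := by
      rw [neg_le_neg_iff, neg_le_neg_iff]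
      exact or_comm
    rw [h2]
    exact h1
  CW := fun v hv => wr_of_mem R Q.hC' hv
  EE := fun p q h1 h2 h3 => ⟨h1.1, h3, h2⟩
  EE' := fun p q h => ⟨⟨h.1, wr_flip Q.F Q.hC h.2.1, wr_flip Q.F Q.hC h.2.2⟩, h.2.2, h.2.1⟩
  EW := fun p q h => ⟨h.2.2, h.2.1⟩
  lt := fun p q h => neg_lt_neg (Q.P.mono q p h.2.1 h.2.2 h.1.lt)
  ca := Q.hb'
  cb := Q.ha'
  pos := fun w hw => ⟨neg_lt_neg (Q.pos w hw).2, neg_lt_neg (Q.pos w hw).1⟩
  last := fun w v h1 h2 h3 => neg_lt_neg (hlast w v h1 h2 (neg_lt_neg_iff.mp h3))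
  ll := Q.hcl
  lmin := fun w hw => neg_le_neg (Q.P.mono' (wr_of_mem R Q.hC hw.1) (wr_of_mem R Q.hC Q.hc)
    (Q.hc' w hw.1 hw.2.2))
  al := ⟨Q.cb, wr_of_mem R Q.hC Q.hc, Q.wb⟩
  new := by
    intro p q h h'
    obtain ⟨h1, h2, h3, h4, h5, h6⟩ := Q.new h h'.symm
    refine ⟨h2, h1, ?_⟩
    rcases eq_or_lt_of_le h4 with h7 | h7
    · exact Or.inl ⟨h7, h6 h7⟩
    · right
      rintro v hv ⟨h8, h9⟩
      have h8' : β v < β p := neg_lt_neg_iff.mp h8
      have h9' : β q < β v := neg_lt_neg_iff.mp h9
      rcases (wr_iff Q.F Q.hC v).mp hv with h10 | h10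
      · have hp : p ∈ lside C a b := ⟨h2, h3.trans_lt h.1.lt, h7⟩
        have h11 := Q.P.mono' Q.wa h.2.1 h3
        have := hlast p v hp h10 (by linarith)
        linarith
      · exact Q.P.cons Q.hC h.1 h1 h2 h10.1 ⟨h9', h8'⟩
  cons := fun s t h1 h2 h3 v hv h4 => Q.P'.cons Q.hC' h1.1 h3 h2 hv
    ⟨neg_lt_neg_iff.mp h4.2, neg_lt_neg_iff.mp h4.1⟩
  ar := ⟨Q.zb, wr_of_mem R Q.hC' Q.hz, wr_of_mem R Q.hC' Q.hb'⟩
  cr := Q.hz
  rb := neg_lt_neg (Q.P'.mono _ _ (wr_of_mem R Q.hC' Q.ha') (wr_of_mem R Q.hC' Q.hz) Q.az)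
  zb := ⟨Q.F.ar, wr_of_mem R Q.hC' Q.ha', wr_of_mem R Q.hC' Q.hr'⟩
  cz := Q.hr'
  az := neg_lt_neg (Q.P'.mono _ _ (wr_of_mem R Q.hC' Q.hr') (wr_of_mem R Q.hC' Q.hb')
    (Q.F.rb' Q.hC))
  cov := fun v h1 h2 => by
    obtain ⟨s, t, h3, h4⟩ := Q.P'.cov Q.hC' h1 h2
    refine ⟨t, s, ⟨h3.1, h3.2.2, h3.2.1⟩, h4.1, neg_lt_neg h4.2.2, neg_lt_neg h4.2.1⟩
  size := by
    rw [N_neg, N_neg]
    exact hsize

end Pre


theorem sep' (β : V → ℝ) : ∃ ε : ℝ, 0 < ε ∧ ∀ u v, β u < β v → β u + ε ≤ β v := by
  classical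
  obtain ⟨p, _, hp⟩ := Finset.exists_min_image (Finset.univ : Finset (V × V))
    (fun p => if β p.1 < β p.2 then β p.2 - β p.1 else 1) ⟨(⊥, ⊥), Finset.mem_univ _⟩
  refine ⟨if β p.1 < β p.2 then β p.2 - β p.1 else 1, ?_, ?_⟩
  · split_ifs with h
    · linarith
    · exact one_pos
  · intro u v huv
    have := hp (u, v) (Finset.mem_univ _)
    simp only [huv, if_true] at this
    linarith

/-- The positions after an insertion of the left side at one end. -/
theorem pos_step (F : Face R C a l r b) (hC : IsMaxChain (· ≤ ·) C)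
    (P' : Pos R (flipC R C a r b) β) {β' : V → ℝ}
    (e1 : ∀ v, wr R (flipC R C a r b) v → β' v = β v)
    (e2 : ∀ v ∈ lside C a b, β a < β' v ∧ β' v < β b)
    (e3 : ∀ v ∈ lside C a b, ∀ w ∈ lside C a b, v < w → β' v < β' w)
    (e4 : ∀ v ∈ lside C a b, ∀ w, wr R (flipC R C a r b) w → β' v ≠ β w) : Pos R C β' := by
  have hC' := flip_max F hC
  have ha' : a ∈ flipC R C a r b := Or.inl ⟨F.ha, Or.inl le_rfl⟩
  have hb' : b ∈ flipC R C a r b := Or.inl ⟨F.hb, Or.inr le_rfl⟩
  refine ⟨?_, ?_⟩
  · intro x y hx hy h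
    rcases (wr_iff F hC x).mp hx with h1 | h1 <;> rcases (wr_iff F hC y).mp hy with h2 | h2
    · rw [e1 x h1, e1 y h2] at h
      exact P'.inj x y h1 h2 h
    · rw [e1 x h1] at h
      exact absurd h.symm (e4 y h2 x h1)
    · rw [e1 y h2] at h
      exact absurd h (e4 x h1 y h2)
    · rcases chain_total hC h1.1 h2.1 with h3 | h3
      · rcases eq_or_lt_of_le h3 with h4 | h4
        · exact h4
        · exact absurd h (e3 x h1 y h2 h4).ne
      · rcases eq_or_lt_of_le h3 with h4 | h4
        · exact h4.symm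
        · exact absurd h (e3 y h2 x h1 h4).ne'
  · intro x y hx hy h
    rcases (wr_iff F hC x).mp hx with h1 | h1 <;> rcases (wr_iff F hC y).mp hy with h2 | h2
    · rw [e1 x h1, e1 y h2]
      exact P'.mono x y h1 h2 h
    · have hxl : x ∉ lside C a b := fun h3 => lside_not F hC h3 h1
      have h3 := below_lside F hC h2 h hx hxl
      have h4 := P'.mono' h1 (wr_of_mem R hC' ha') h3
      rw [e1 x h1]
      exact lt_of_le_of_lt h4 (e2 y h2).1
    · have hyl : y ∉ lside C a b := fun h3 => lside_not F hC h3 h2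
      have h3 : y ∈ C := above_l F hC hy ((F.l_le hC h1.1 h1.2.1).trans h.le)
      have h4 : b ≤ y := by
        rcases out_of' F hC h3 hyl with h4 | h4
        · exact absurd (h1.2.1.trans h) (not_lt_of_ge h4)
        · exact h4
      have h5 := P'.mono' (wr_of_mem R hC' hb') h2 h4
      rw [e1 y h2]
      exact lt_of_lt_of_le (e2 x h1).2 h5
    · exact e3 x h1 y h2 h

/-- For every maximal chain there are positions of the elements which are not to its left such
that every admissible choice on the chain has a colouring. -/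
theorem ext_ex (R : LR V) (K L : ℕ) (hK : 2 * L ≤ K + 1) : ∀ C : Set V,
    IsMaxChain (· ≤ ·) C → ∃ β : V → ℝ, Pos R C β ∧
      Ext K L (wr R C) (· ∈ C) (Ed R C) β := by
  classical
  have main : ∀ n : ℕ, ∀ C : Set V, IsMaxChain (· ≤ ·) C →
      (Finset.univ.filter (fun v => wr R C v)).card ≤ n → ∃ β : V → ℝ, Pos R C β ∧
      Ext K L (wr R C) (· ∈ C) (Ed R C) β := by
    intro n
    induction n with
    | zero =>
      intro C hC hn
      rw [Nat.le_zero, Finset.card_eq_zero, Finset.filter_eq_empty_iff] at hn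
      exact absurd (wr_of_mem R hC hC.bot_mem) (hn (Finset.mem_univ ⊥))
    | succ n ih =>
      intro C hC hn
      by_cases h : ∀ v, wr R C v → v ∈ C
      · -- a chain
        have P : Pos R C (fun v => (ht v : ℝ)) := by
          refine ⟨?_, ?_⟩
          · intro x y hx hy he
            have he' : ht x = ht y := by exact_mod_cast he
            rcases chain_total hC (h x hx) (h y hy) with h1 | h1
            · rcases eq_or_lt_of_le h1 with h2 | h2
              · exact h2
              · exact absurd he' (ht_lt h2).ne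
            · rcases eq_or_lt_of_le h1 with h2 | h2
              · exact h2.symm
              · exact absurd he' (ht_lt h2).ne'
          · intro x y _ _ hxy
            have := ht_lt hxy
            show (ht x : ℝ) < (ht y : ℝ)
            exact_mod_cast this
        refine ⟨fun v => (ht v : ℝ), P, ?_⟩
        intro ty F G _
        have hEN : ∀ p q, ¬ EN (· ∈ C) (Ed R C) p q := by
          rintro p q ⟨h1, h2⟩
          exact h2 ⟨h p h1.2.1, h q h1.2.2⟩
        refine ⟨fun s t => colC (ty s t) (N (wr R C) (fun v => (ht v : ℝ)) s t), ?_, ?_, ?_, ?_,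
          ?_, ?_, ?_, ?_, ?_⟩
        · intro s t _
          rfl
        · intro p q p' q' h1 h2 _ h3
          exact P.cons hC h1.1 (h p h1.2.1) (h q h1.2.2) (h p' h2.2.1) ⟨h3.1, h3.2.1⟩
        · intro p q κ s t h1
          exact absurd h1 (hEN p q)
        · intro p q κ h1
          exact absurd h1 (hEN p q)
        · intro p q κ s t h1
          exact absurd h1 (hEN p q)
        · intro p q κ s t h1
          exact absurd h1 (hEN p q)
        · intro p q s t h1
          exact absurd h1 (hEN p q)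
        · intro p q κ s t h1
          exact absurd h1 (hEN p q)
        · intro p q κ s t h1
          exact absurd h1 (hEN p q)
      · push Not at h
        obtain ⟨v, hv, hv'⟩ := h
        obtain ⟨a, l, r, b, F⟩ := face_ex R hC hv hv'
        have hC' := flip_max F hC
        have ha' : a ∈ flipC R C a r b := Or.inl ⟨F.ha, Or.inl le_rfl⟩
        have hb' : b ∈ flipC R C a r b := Or.inl ⟨F.hb, Or.inr le_rfl⟩
        have hlb : l < b := by
          rcases eq_or_lt_of_le (F.l_le hC F.hb F.ab) with h4 | h4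
          · exact (R.ne2 F.Llr (h4 ▸ F.rb)).elim
          · exact h4
        have hl : l ∈ lside C a b := ⟨F.hl, F.al.lt, hlb⟩
        have hcard : (Finset.univ.filter (fun v => wr R (flipC R C a r b) v)).card <
            (Finset.univ.filter (fun v => wr R C v)).card := by
          apply Finset.card_lt_card
          constructor
          · intro z hz
            simp only [Finset.mem_filter, Finset.mem_univ, true_and] at hz ⊢
            exact wr_flip F hC hz
          · intro h3
            have h4 := h3 (by simpa using wr_of_mem R hC F.hl :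
              l ∈ Finset.univ.filter (fun v => wr R C v))
            simp only [Finset.mem_filter, Finset.mem_univ, true_and] at h4
            exact lside_not F hC hl h4
        obtain ⟨β, P', X⟩ := ih _ hC' (by omega)
        obtain ⟨c, hc, hcb, hc'⟩ := pred_ex hC F.hb F.hl hlb
        obtain ⟨z, hz, hzb, hz'⟩ := pred_ex hC' hb' (Or.inr (r_mem_side F hC)) (F.rb' hC)
        have hrz := hz' r (Or.inr (r_mem_side F hC)) (F.rb' hC)
        obtain ⟨ε, hε0, hε⟩ := sep' β
        have hEd : ∀ p q, Ed R (flipC R C a r b) p q →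
            wr R (flipC R C a r b) p ∧ wr R (flipC R C a r b) q := fun p q h => h.2
        -- small increasing numbers for the elements of the left side
        have hu : ∀ v : V, 0 < ε / ((ht v : ℝ) + 2) ∧ ε / ((ht v : ℝ) + 2) < ε := by
          intro v
          have h0 : (0 : ℝ) ≤ (ht v : ℝ) := Nat.cast_nonneg _
          constructor
          · positivity
          · rw [div_lt_iff₀ (by linarith)]
            nlinarith
        have hu2 : ∀ v w : V, v < w → ε / ((ht w : ℝ) + 2) < ε / ((ht v : ℝ) + 2) := by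
          intro v w hvw
          have h0 : (0 : ℝ) ≤ (ht v : ℝ) := Nat.cast_nonneg _
          have h1 : (ht v : ℝ) < (ht w : ℝ) := by exact_mod_cast ht_lt hvw
          exact div_lt_div_of_pos_left hε0 (by linarith) (by linarith)
        have hab : β a + ε ≤ β b := by
          apply hε
          exact P'.mono a b (wr_of_mem R hC' ha') (wr_of_mem R hC' hb') F.ab
        by_cases hsz : N (wr R (flipC R C a r b)) β z b ≤ N (wr R (flipC R C a r b)) β a r
        · -- slot first
          let β' : V → ℝ := fun v => if v ∈ lside C a b then β b - ε / ((ht v : ℝ) + 2) else β v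
          have e1 : ∀ v, wr R (flipC R C a r b) v → β' v = β v := by
            intro v hv
            exact if_neg (fun h3 => lside_not F hC h3 hv)
          have e2 : ∀ v ∈ lside C a b, β' v = β b - ε / ((ht v : ℝ) + 2) := by
            intro v hv
            exact if_pos hv
          have elast : ∀ w v, w ∈ lside C a b → wr R (flipC R C a r b) v → β' v < β' b →
              β' v < β' w := by
            intro w v hw hv h3
            rw [e1 v hv, e1 b (wr_of_mem R hC' hb')] at h3
            rw [e1 v hv, e2 w hw]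
            have h4 := hε v b h3
            have h5 := (hu w).2
            linarith
          have P : Pos R C β' := by
            apply pos_step F hC P' e1
            · intro v hv
              rw [e2 v hv]
              have h4 := hu v
              exact ⟨by linarith, by linarith⟩
            · intro v hv w hw hvw
              rw [e2 v hv, e2 w hw]
              have h4 := hu2 v w hvw
              linarith
            · intro v hv w hw h3
              rw [e2 v hv] at h3
              have h4 := hu v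
              rcases lt_or_ge (β w) (β b) with h5 | h5
              · have h6 := hε w b h5
                linarith
              · linarith
          have P'' : Pos R (flipC R C a r b) β' := by
            refine ⟨?_, ?_⟩
            · intro x y hx hy h3
              rw [e1 x hx, e1 y hy] at h3
              exact P'.inj x y hx hy h3
            · intro x y hx hy h3
              rw [e1 x hx, e1 y hy]
              exact P'.mono x y hx hy h3
          have X' := X.congr (fun v hv => (e1 v hv).symm) hEd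
          have hN : ∀ s t, s ∈ flipC R C a r b → t ∈ flipC R C a r b →
              N (wr R (flipC R C a r b)) β' s t = N (wr R (flipC R C a r b)) β s t := by
            intro s t hs ht
            apply N_eq
            intro v
            unfold Gap
            constructor
            · rintro ⟨h1, h2, h3⟩
              rw [e1 v h1, e1 s (wr_of_mem R hC' hs)] at h2
              rw [e1 v h1, e1 t (wr_of_mem R hC' ht)] at h3
              exact ⟨h1, h2, h3⟩
            · rintro ⟨h1, h2, h3⟩
              rw [e1 v h1, e1 s (wr_of_mem R hC' hs), e1 t (wr_of_mem R hC' ht)]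
              exact ⟨h1, h2, h3⟩
          have Q : Pre R C a l r b c z β' := ⟨F, hC, P, P'', hc, hcb, hc', hz, hzb, hrz⟩
          have S := Q.first elast (by
            rw [hN z b hz hb', hN a r ha' (Or.inr (r_mem_side F hC))]
            exact hsz)
          exact ⟨β', P, S.step hK X'⟩
        · -- slot last
          let β' : V → ℝ := fun v =>
            if v ∈ lside C a b then β a + ε - ε / ((ht v : ℝ) + 2) else β v
          have e1 : ∀ v, wr R (flipC R C a r b) v → β' v = β v := by
            intro v hv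
            exact if_neg (fun h3 => lside_not F hC h3 hv)
          have e2 : ∀ v ∈ lside C a b, β' v = β a + ε - ε / ((ht v : ℝ) + 2) := by
            intro v hv
            exact if_pos hv
          have elast : ∀ w v, w ∈ lside C a b → wr R (flipC R C a r b) v → β' a < β' v →
              β' w < β' v := by
            intro w v hw hv h3
            rw [e1 v hv, e1 a (wr_of_mem R hC' ha')] at h3
            rw [e1 v hv, e2 w hw]
            have h4 := hε a v h3
            have h5 := (hu w).1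
            linarith
          have P : Pos R C β' := by
            apply pos_step F hC P' e1
            · intro v hv
              rw [e2 v hv]
              have h4 := hu v
              exact ⟨by linarith, by linarith⟩
            · intro v hv w hw hvw
              rw [e2 v hv, e2 w hw]
              have h4 := hu2 v w hvw
              linarith
            · intro v hv w hw h3
              rw [e2 v hv] at h3
              have h4 := hu v
              rcases lt_or_ge (β a) (β w) with h5 | h5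
              · have h6 := hε a w h5
                linarith
              · linarith
          have P'' : Pos R (flipC R C a r b) β' := by
            refine ⟨?_, ?_⟩
            · intro x y hx hy h3
              rw [e1 x hx, e1 y hy] at h3
              exact P'.inj x y hx hy h3
            · intro x y hx hy h3
              rw [e1 x hx, e1 y hy]
              exact P'.mono x y hx hy h3
          have X' := X.congr (fun v hv => (e1 v hv).symm) hEd
          have hN : ∀ s t, s ∈ flipC R C a r b → t ∈ flipC R C a r b →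
              N (wr R (flipC R C a r b)) β' s t = N (wr R (flipC R C a r b)) β s t := by
            intro s t hs ht
            apply N_eq
            intro v
            unfold Gap
            constructor
            · rintro ⟨h1, h2, h3⟩
              rw [e1 v h1, e1 s (wr_of_mem R hC' hs)] at h2
              rw [e1 v h1, e1 t (wr_of_mem R hC' ht)] at h3
              exact ⟨h1, h2, h3⟩
            · rintro ⟨h1, h2, h3⟩
              rw [e1 v h1, e1 s (wr_of_mem R hC' hs), e1 t (wr_of_mem R hC' ht)]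
              exact ⟨h1, h2, h3⟩
          have Q : Pre R C a l r b c z β' := ⟨F, hC, P, P'', hc, hcb, hc', hz, hzb, hrz⟩
          have S := Q.last elast (by
            rw [hN z b hz hb', hN a r ha' (Or.inr (r_mem_side F hC))]
            exact (not_le.mp hsz).le)
          have Y := (S.step hK X'.dual).dual
          have e5 : (fun v => - -β' v) = β' := by
            funext v
            rw [neg_neg]
          rw [e5] at Y
          exact ⟨β', P, Y⟩
  intro C hC
  exact main _ C hC le_rfl

end Lat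

end Pool.Agent.Helper80.Log
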