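import Pool.Agent.Helper80.Log.Lat
import Pool.Agent.Helper80.Lat.Realizer

set_option autoImplicit false
set_option linter.unusedSectionVars false

/-!
# Stack layouts of planar lattices with O(log n) stacks: theorem
-/

namespace Pool.Agent.Helper80.Log

open Pool.Agent.Helper80.Lat

/-- A numbering and a colouring of the cover pairs with `k` colours. -/
def Layout (k : ℕ) (V : Type) [PartialOrder V] : Prop :=
  ∃ (σ : V → ℕ) (c : V → V → Fin k),
    Function.Injective σ ∧ (∀ a b : V, a < b → σ a < σ b) ∧
    ∀ a b x y : V, a ⋖ b → x ⋖ y → c a b = c x y →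
      ¬ (σ a < σ x ∧ σ x < σ b ∧ σ b < σ y)

/-- Colours as numbers. -/
def num {K : ℕ} : Col K → Fin (K + 2)
  | .un => ⟨K, by omega⟩
  | .st => ⟨K + 1, by omega⟩
  | .lg κ => ⟨κ.1, by omega⟩

theorem num_inj {K : ℕ} : Function.Injective (num (K := K)) := by
  intro x y h
  have h1 := congrArg Fin.val h
  cases x with
  | un =>
    cases y with
    | un => rfl
    | st => simp [num] at h1
    | lg κ => have := κ.2; simp only [num] at h1; omega
  | st =>
    cases y with
    | un => simp [num] at h1
    | st => rfl
    | lg κ => have := κ.2; simp only [num] at h1; omega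
  | lg κ =>
    cases y with
    | un => have := κ.2; simp only [num] at h1; omega
    | st => have := κ.2; simp only [num] at h1; omega
    | lg κ' =>
      simp only [num] at h1
      rw [Fin.ext h1]

/-- Bounded posets with a left-of relation. -/
theorem layout_of (V : Type) [Fintype V] [PartialOrder V] [BoundedOrder V] (R : LR V)
    (L : ℕ) (hL0 : 0 < L) (hL : Fintype.card V ≤ 2 ^ L) : Layout (2 * L + 1) V := by
  classical
  obtain ⟨β, P, X⟩ := ext_ex R (2 * L - 1) L (by omega) (lbd R) (lbd_max R)
  have hw := wr_lbd R
  have hAdm : Adm L (wr R (lbd R)) (· ∈ lbd R) (Ed R (lbd R)) β (fun _ _ => (Ty.sh : Ty (2 * L - 1)))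
      (fun _ _ => ∅) (fun _ => ∅) := by
    refine ⟨?_, ?_, ?_, ?_⟩
    · intro s t hst
      have h1 : N (wr R (lbd R)) β s t < Fintype.card V := by
        unfold N
        rw [← Finset.card_univ]
        apply Finset.card_lt_card
        constructor
        · exact Finset.filter_subset _ _
        · intro h
          have h2 := h (Finset.mem_univ s)
          simp only [Finset.mem_filter, Finset.mem_univ, true_and] at h2
          exact lt_irrefl _ h2.2.1
      simp only [own, Finset.empty_union, Finset.card_empty, pow_zero, mul_one]
      omega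
    · intro y _
      rw [Finset.card_empty]
      exact hL0
    · intro s t κ _ h
      simp at h
    · intro s t κ _ h
      simp at h
  obtain ⟨c, hc⟩ := X _ _ _ hAdm
  have hrk : ∀ u v : V, (Finset.univ.filter (fun w => β w < β u)).card <
      (Finset.univ.filter (fun w => β w < β v)).card ↔ β u < β v := by
    intro u v
    constructor
    · intro h
      by_contra h1
      have h2 : (Finset.univ.filter (fun w => β w < β v)) ⊆
          (Finset.univ.filter (fun w => β w < β u)) := by
        intro w hw
        simp only [Finset.mem_filter, Finset.mem_univ, true_and] at hw ⊢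
        exact hw.trans_le (not_lt.mp h1)
      exact absurd h (not_lt_of_ge (Finset.card_le_card h2))
    · intro h
      apply Finset.card_lt_card
      constructor
      · intro w hw
        simp only [Finset.mem_filter, Finset.mem_univ, true_and] at hw ⊢
        exact hw.trans h
      · intro h1
        have h2 := h1 (by simpa using h : u ∈ Finset.univ.filter (fun w => β w < β v))
        simp at h2
  have hK : 2 * L - 1 + 2 = 2 * L + 1 := by omega
  refine ⟨fun u => (Finset.univ.filter (fun w => β w < β u)).card,
    fun p q => Fin.cast hK (num (c p q)), ?_, ?_, ?_⟩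
  · intro u v h
    by_contra hne
    have h' : (Finset.univ.filter (fun w => β w < β u)).card =
      (Finset.univ.filter (fun w => β w < β v)).card := h
    have h1 : ¬ β u < β v := fun h2 => absurd ((hrk u v).mpr h2) (by rw [h']; exact lt_irrefl _)
    have h2 : ¬ β v < β u := fun h2 => absurd ((hrk v u).mpr h2) (by rw [h']; exact lt_irrefl _)
    exact hne (P.inj u v (hw u) (hw v) (le_antisymm (not_lt.mp h2) (not_lt.mp h1)))
  · intro u v h
    exact (hrk u v).mpr (P.mono u v (hw u) (hw v) h)
  · intro p q p' q' h1 h2 h3 h4
    have h5 : c p q = c p' q' := num_inj (by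
      have := congrArg Fin.val h3
      exact Fin.ext this)
    exact hc.c0 p q p' q' ⟨h1, hw p, hw q⟩ ⟨h2, hw p', hw q'⟩ h5
      ⟨(hrk p p').mp h4.1, (hrk p' q).mp h4.2.1, (hrk q q').mp h4.2.2⟩

/-- Every finite planar lattice with `n` elements has a stack layout with
`2 ⌈log₂ n⌉ + 1` stacks. -/
theorem main (V : Type) [Fintype V] [Lattice V] (hV : UpwardPlanar V) :
    Layout (2 * Nat.clog 2 (Fintype.card V) + 1) V := by
  rcases isEmpty_or_nonempty V with hE | hN
  · exact ⟨fun _ => 0, fun v => hE.elim v, fun v => hE.elim v, fun v => hE.elim v,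
      fun v => hE.elim v⟩
  · let _ : BoundedOrder V := Fintype.toBoundedOrder V
    obtain ⟨p, γ, h1, h2, h3⟩ := hV
    obtain ⟨D⟩ := Pool.Agent.Helper45.Stk.pf_Curve V _ p γ h1 h2 h3
    rcases subsingleton_or_nontrivial V with hS | hT
    · refine ⟨fun _ => 0, fun _ _ => 0, fun x y _ => Subsingleton.elim x y, ?_, ?_⟩
      · intro a b hab
        exact absurd (Subsingleton.elim a b) hab.ne
      · intro a b x y hab
        exact absurd (Subsingleton.elim a b) hab.lt.ne
    · have hc : 1 < Fintype.card V := Fintype.one_lt_card
      exact layout_of V (lrOf D) _ (Nat.clog_pos (by norm_num) hc)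
        (Nat.le_pow_clog (by norm_num) _)

end Pool.Agent.Helper80.Log
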