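import Pool.Agent.Helper80.Log.Abs

set_option autoImplicit false
set_option linter.unusedSectionVars false

/-!
# The abstract step: a new face, slot first
-/

namespace Pool.Agent.Helper80.Log

variable {V : Type} [Fintype V] {K : ℕ}

/-- The face with ends `a`, `b`: the new elements `Λ` are placed immediately before `b`. -/
structure Stp (W W' C C' Λ : V → Prop) (E E' : V → V → Prop) (β : V → ℝ) (a b l r z : V) :
    Prop where
  inj : ∀ x y, W x → W y → β x = β y → x = y
  WW : ∀ v, W v ↔ W' v ∨ Λ v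
  Wd : ∀ v, W' v → ¬ Λ v
  CC : ∀ v, C v ↔ (C' v ∧ (β v ≤ β a ∨ β b ≤ β v)) ∨ Λ v
  CW : ∀ v, C' v → W' v
  EE : ∀ p q, E p q → W' p → W' q → E' p q
  EE' : ∀ p q, E' p q → E p q ∧ W' p ∧ W' q
  EW : ∀ p q, E p q → W p ∧ W q
  lt : ∀ p q, E p q → β p < β q
  ca : C' a
  cb : C' b
  pos : ∀ w, Λ w → β a < β w ∧ β w < β b
  last : ∀ w v, Λ w → W' v → β v < β b → β v < β w
  ll : Λ l
  lmin : ∀ w, Λ w → β l ≤ β w
  al : E a l
  new : ∀ p q, E p q → Λ p ∨ Λ q →
    C p ∧ C q ∧ ((p = a ∧ q = l) ∨ ∀ v, W v → ¬ (β p < β v ∧ β v < β q))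
  cons : ∀ s t, E' s t → C' s → C' t → ∀ v, C' v → ¬ (β s < β v ∧ β v < β t)
  ar : E' a r
  cr : C' r
  rb : β r < β b
  zb : E' z b
  cz : C' z
  az : β a < β z
  cov : ∀ v, W' v → ¬ C' v → ∃ s t, EC C' E' s t ∧ Gap W' β s t v
  size : N W' β z b ≤ N W' β a r

theorem N_mono {W W' : V → Prop} {β β' : V → ℝ} {s t s' t' : V}
    (h : ∀ v, Gap W β s t v → Gap W' β' s' t' v) : N W β s t ≤ N W' β' s' t' := by
  classical
  unfold N
  apply Finset.card_le_card
  intro v hv
  simp only [Finset.mem_filter, Finset.mem_univ, true_and] at hv ⊢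
  exact h v hv

theorem N_eq {W W' : V → Prop} {β β' : V → ℝ} {s t s' t' : V}
    (h : ∀ v, Gap W β s t v ↔ Gap W' β' s' t' v) : N W β s t = N W' β' s' t' :=
  le_antisymm (N_mono fun v => (h v).mp) (N_mono fun v => (h v).mpr)

theorem N_zero {W : V → Prop} {β : V → ℝ} {s t : V} (h : ∀ v, ¬ Gap W β s t v) :
    N W β s t = 0 := by
  classical
  unfold N
  rw [Finset.card_eq_zero, Finset.filter_eq_empty_iff]
  intro v _
  exact h v

theorem N_two {W : V → Prop} {β : V → ℝ} {a b r z : V} (hr : Gap W β a b r)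
    (hz : Gap W β a b z) (hrz : β r ≤ β z) : N W β a r + N W β z b + 1 ≤ N W β a b := by
  classical
  unfold N
  obtain ⟨hr1, hr2, hr3⟩ := hr
  obtain ⟨hz1, hz2, hz3⟩ := hz
  have h1 : Disjoint (Finset.univ.filter (fun v => Gap W β a r v))
      (Finset.univ.filter (fun v => Gap W β z b v)) := by
    rw [Finset.disjoint_left]
    intro v h2 h3
    simp only [Finset.mem_filter, Finset.mem_univ, true_and] at h2 h3
    obtain ⟨_, _, h4⟩ := h2
    obtain ⟨_, h5, _⟩ := h3
    linarith
  rw [← Finset.card_union_of_disjoint h1]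
  have h2 : r ∉ (Finset.univ.filter (fun v => Gap W β a r v)) ∪
      (Finset.univ.filter (fun v => Gap W β z b v)) := by
    intro h2
    simp only [Finset.mem_union, Finset.mem_filter, Finset.mem_univ, true_and] at h2
    rcases h2 with ⟨_, _, h4⟩ | ⟨_, h4, _⟩ <;> linarith
  rw [← Finset.card_insert_of_notMem h2]
  apply Finset.card_le_card
  intro v hv
  simp only [Finset.mem_insert, Finset.mem_union, Finset.mem_filter, Finset.mem_univ,
    true_and] at hv ⊢
  rcases hv with rfl | ⟨h3, h4, h5⟩ | ⟨h3, h4, h5⟩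
  · exact ⟨hr1, hr2, hr3⟩
  · exact ⟨h3, h4, by linarith⟩
  · exact ⟨h3, by linarith, h5⟩

theorem colC_lg {t : Ty K} {n : ℕ} {κ : Fin K} (h : colC t n = .lg κ) :
    t = .al κ ∨ t = .om κ := by
  cases n <;> cases t <;> simp_all [colC]

theorem colC_st {t : Ty K} {n : ℕ} (h : colC t n = .st) : t = .sh := by
  cases n <;> cases t <;> simp_all [colC]

section

variable {L : ℕ} {W W' C C' Λ : V → Prop} {E E' : V → V → Prop} {β : V → ℝ} {a b l r z : V}

/-- An old element strictly inside the face. -/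
def Mid (W' : V → Prop) (β : V → ℝ) (a b v : V) : Prop := W' v ∧ β a < β v ∧ β v < β b

/-- The part of the new types which is in the face. -/
def Ins (β : V → ℝ) (a b : V) (s t : V) : Prop := β a ≤ β s ∧ β t ≤ β b

open Classical in
/-- New types. -/
noncomputable def ty' (β : V → ℝ) (a b l : V) (ty : V → V → Ty K) (κs : Fin K) (s t : V) :
    Ty K :=
  if Ins β a b s t then
    if t = b then .om κs else if s = a then
      (match ty a l with | .al κ => .al κ | _ => .sh) else .sh
  else ty s t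

open Classical in
/-- New forbidden sets. -/
noncomputable def F' (β : V → ℝ) (a b l : V) (ty : V → V → Ty K)
    (F : V → V → Finset (Fin K)) (s t : V) : Finset (Fin K) :=
  if Ins β a b s t then
    if s = a ∧ ∃ κ, ty a l = .al κ then F a l else F a l ∪ own (ty a l)
  else F s t

open Classical in
/-- New forbidden sets of the elements. -/
noncomputable def G' (β : V → ℝ) (a b l : V) (ty : V → V → Ty K)
    (F : V → V → Finset (Fin K)) (G : V → Finset (Fin K)) (y : V) : Finset (Fin K) :=
  if β a < β y ∧ β y < β b then F a l ∪ own (ty a l) else G y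

theorem F'_sub (ty : V → V → Ty K) (F : V → V → Finset (Fin K)) {s t : V}
    (h : Ins β a b s t) : F a l ⊆ F' β a b l ty F s t := by
  unfold F'
  rw [if_pos h]
  split_ifs
  · exact subset_rfl
  · exact Finset.subset_union_left

namespace Stp

variable (S : Stp W W' C C' Λ E E' β a b l r z)

include S

theorem inj' {x y : V} (hx : W' x) (hy : W' y) (h : β x = β y) : x = y :=
  S.inj x y ((S.WW x).mpr (Or.inl hx)) ((S.WW y).mpr (Or.inl hy)) h

theorem lt' {p q : V} (h : E' p q) : β p < β q := S.lt p q (S.EE' p q h).1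

theorem ab : β a < β b := lt_trans (S.lt' S.ar) S.rb

/-- An edge of the new chain is in the face or outside. -/
theorem dich {s t : V} (h : EC C' E' s t) : Ins β a b s t ∨ β t ≤ β a ∨ β b ≤ β s := by
  obtain ⟨h1, h2, h3⟩ := h
  have h4 := S.cons s t h1 h2 h3 a S.ca
  have h5 := S.cons s t h1 h2 h3 b S.cb
  by_cases h6 : β t ≤ β a
  · exact Or.inr (Or.inl h6)
  by_cases h7 : β b ≤ β s
  · exact Or.inr (Or.inr h7)
  left
  push Not at h6 h7
  refine ⟨?_, ?_⟩
  · by_contra h8
    exact h4 ⟨not_le.mp h8, h6⟩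
  · by_contra h8
    exact h5 ⟨h7, not_le.mp h8⟩

theorem not_ab {t : V} (h : EC C' E' a t) : β t < β b := by
  by_contra h1
  exact S.cons a t h.1 h.2.1 h.2.2 r S.cr ⟨S.lt' S.ar, lt_of_lt_of_le S.rb (not_lt.mp h1)⟩

theorem z_eq {s : V} (h : EC C' E' s b) : s = z := by
  obtain ⟨h1, h2, h3⟩ := h
  have h4 := S.cons s b h1 h2 h3 z S.cz
  have h5 := S.cons z b S.zb S.cz S.cb s h2
  have h6 := S.lt' h1
  have h7 := S.lt' S.zb
  apply S.inj' (S.CW _ h2) (S.CW _ S.cz)
  by_contra h8
  rcases lt_or_gt_of_ne h8 with h9 | h9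
  · exact h4 ⟨h9, h7⟩
  · exact h5 ⟨h9, h6⟩

theorem rz : β r ≤ β z := by
  by_contra h
  exact S.cons a r S.ar S.ca S.cr z S.cz ⟨S.az, not_le.mp h⟩

theorem gap_al (v : V) : Gap W β a l v ↔ Gap W' β a b v := by
  unfold Gap
  rw [S.WW]
  have hl := S.pos l S.ll
  constructor
  · rintro ⟨h1 | h1, h2, h3⟩
    · exact ⟨h1, h2, by linarith⟩
    · have := S.lmin v h1
      linarith
  · rintro ⟨h1, h2, h3⟩
    exact ⟨Or.inl h1, h2, S.last l v S.ll h1 h3⟩

theorem gap_out {s t : V} (h : β t ≤ β a ∨ β b ≤ β s) (v : V) :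
    Gap W β s t v ↔ Gap W' β s t v := by
  unfold Gap
  rw [S.WW]
  constructor
  · rintro ⟨h1 | h1, h2, h3⟩
    · exact ⟨h1, h2, h3⟩
    · have := S.pos v h1
      rcases h with h | h <;> linarith [this.1, this.2]
  · rintro ⟨h1, h2, h3⟩
    exact ⟨Or.inl h1, h2, h3⟩

theorem N_al : N W β a l = N W' β a b := N_eq S.gap_al

theorem N_ge : N W' β a r + N W' β z b + 1 ≤ N W β a l := by
  rw [S.N_al]
  exact N_two ⟨S.CW _ S.cr, S.lt' S.ar, S.rb⟩ ⟨S.CW _ S.cz, S.az, S.lt' S.zb⟩ S.rz

theorem al_EC : EC C E a l := by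
  refine ⟨S.al, ?_, ?_⟩
  · rw [S.CC]
    exact Or.inl ⟨S.ca, Or.inl le_rfl⟩
  · rw [S.CC]
    exact Or.inr S.ll

theorem A_lt {ty : V → V → Ty K} {F : V → V → Finset (Fin K)} {G : V → Finset (Fin K)}
    (hA : Adm L W C E β ty F G) : (F a l ∪ own (ty a l)).card < L := by
  have h1 := hA.h1 a l S.al_EC
  have h2 := S.N_ge
  have h3 : 2 ^ ((F a l ∪ own (ty a l)).card + 1) ≤ 2 ^ L := by
    refine le_trans ?_ h1
    rw [pow_succ, mul_comm]
    exact Nat.mul_le_mul_right _ (by omega)
  exact (Nat.pow_le_pow_iff_right (by norm_num)).mp h3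

/-- Old edges of the chain `C` are edges of the chain `C'` outside the face. -/
theorem old {s t : V} (h : EC C E s t) (hs : ¬ Λ s) (ht : ¬ Λ t) :
    EC C' E' s t ∧ (β t ≤ β a ∨ β b ≤ β s) := by
  obtain ⟨h1, h2, h3⟩ := h
  rw [S.CC] at h2 h3
  rcases h2 with ⟨h2, h4⟩ | h2
  swap
  · exact absurd h2 hs
  rcases h3 with ⟨h3, h5⟩ | h3
  swap
  · exact absurd h3 ht
  have h6 : EC C' E' s t := ⟨S.EE s t h1 (S.CW _ h2) (S.CW _ h3), h2, h3⟩
  refine ⟨h6, ?_⟩
  rcases S.dich h6 with h7 | h7
  swap
  · exact h7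
  obtain ⟨h7, h8⟩ := h7
  rcases h4 with h4 | h4
  swap
  · exact Or.inr h4
  rcases h5 with h5 | h5
  · exact Or.inl h5
  exfalso
  have e1 : s = a := S.inj' (S.CW _ h2) (S.CW _ S.ca) (le_antisymm h4 h7)
  subst e1
  have := S.not_ab h6
  linarith

theorem out_EC {s t : V} (h : EC C' E' s t) (h' : β t ≤ β a ∨ β b ≤ β s) : EC C E s t := by
  obtain ⟨h1, h2, h3⟩ := h
  have h4 := S.lt' h1
  refine ⟨(S.EE' s t h1).1, ?_, ?_⟩
  · rw [S.CC]
    refine Or.inl ⟨h2, ?_⟩
    rcases h' with h' | h'
    · exact Or.inl (by linarith)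
    · exact Or.inr h'
  · rw [S.CC]
    refine Or.inl ⟨h3, ?_⟩
    rcases h' with h' | h'
    · exact Or.inl h'
    · exact Or.inr (by linarith)

theorem not_ins {s t : V} (h : EC C' E' s t) (h' : β t ≤ β a ∨ β b ≤ β s) :
    ¬ Ins β a b s t := by
  rintro ⟨h1, h2⟩
  have := S.lt' h.1
  rcases h' with h' | h' <;> linarith


theorem F'_own {ty : V → V → Ty K} {F : V → V → Finset (Fin K)} {κs : Fin K} {s t : V}
    (htb : t ≠ b) (hI : Ins β a b s t) :
    F' β a b l ty F s t ∪ own (ty' β a b l ty κs s t) ⊆ F a l ∪ own (ty a l) := by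
  unfold F' ty'
  rw [if_pos hI, if_pos hI, if_neg htb]
  by_cases hs : s = a
  · rw [if_pos hs]
    cases h : ty a l with
    | sh => simp [own]
    | al κ => simp [own, hs]
    | om κ => simp [own]
  · rw [if_neg hs, if_neg (fun h => hs h.1)]
    simp [own]

theorem F'_zb {ty : V → V → Ty K} {F : V → V → Finset (Fin K)} :
    F' β a b l ty F z b = F a l ∪ own (ty a l) := by
  have h1 : Ins β a b z b := ⟨S.az.le, le_rfl⟩
  have h2 : z ≠ a := by
    intro h
    have := S.az
    rw [h] at this
    exact lt_irrefl _ this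
  unfold F'
  rw [if_pos h1, if_neg (fun h => h2 h.1)]

theorem ty'_b {ty : V → V → Ty K} {κs : Fin K} {s : V} (hI : Ins β a b s b) :
    ty' β a b l ty κs s b = .om κs := by
  unfold ty'
  rw [if_pos hI, if_pos rfl]

theorem adm' {ty : V → V → Ty K} {F : V → V → Finset (Fin K)} {G : V → Finset (Fin K)}
    {κs : Fin K} (hA : Adm L W C E β ty F G) (hκ1 : κs ∉ F a l ∪ own (ty a l))
    (hκ2 : κs ∉ G b) :
    Adm L W' C' E' β (ty' β a b l ty κs) (F' β a b l ty F) (G' β a b l ty F G) := by
  have hab := S.ab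
  have hAl := hA.h1 a l S.al_EC
  refine ⟨?_, ?_, ?_, ?_⟩
  · intro s t hst
    rcases S.dich hst with hI | hO
    · by_cases htb : t = b
      · subst htb
        have hz := S.z_eq hst
        subst hz
        rw [S.F'_zb, S.ty'_b hI]
        refine le_trans ?_ hAl
        have h2 : ((F a l ∪ own (ty a l)) ∪ own (Ty.om κs)).card ≤
            (F a l ∪ own (ty a l)).card + 1 := by
          refine le_trans (Finset.card_union_le _ _) ?_
          simp [own]
        have h3 := S.N_ge
        have h4 := S.size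
        calc (N W' β s t + 1) * 2 ^ ((F a l ∪ own (ty a l)) ∪ own (Ty.om κs)).card
            ≤ (N W' β s t + 1) * 2 ^ ((F a l ∪ own (ty a l)).card + 1) :=
              Nat.mul_le_mul_left _ (Nat.pow_le_pow_right (by norm_num) h2)
          _ = (2 * (N W' β s t + 1)) * 2 ^ ((F a l ∪ own (ty a l)).card) := by
              rw [pow_succ]
              ring
          _ ≤ (N W β a l + 1) * 2 ^ ((F a l ∪ own (ty a l)).card) :=
              Nat.mul_le_mul_right _ (by omega)
      · refine le_trans ?_ hAl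
        apply Nat.mul_le_mul
        · apply Nat.succ_le_succ
          rw [S.N_al]
          apply N_mono
          rintro v ⟨h1, h2, h3⟩
          exact ⟨h1, by linarith [hI.1], by linarith [hI.2]⟩
        · apply Nat.pow_le_pow_right (by norm_num)
          exact Finset.card_le_card (S.F'_own htb hI)
    · have h1 := S.not_ins hst hO
      have h2 := hA.h1 s t (S.out_EC hst hO)
      unfold F' ty'
      rw [if_neg h1, if_neg h1]
      rwa [N_eq (S.gap_out hO)] at h2
  · intro y hy
    unfold G'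
    split_ifs with h1
    · exact S.A_lt hA
    · apply hA.h2
      rw [S.CC]
      refine Or.inl ⟨hy, ?_⟩
      by_contra h2
      push Not at h2
      exact h1 h2
  · intro s t κ hst hty
    rcases S.dich hst with hI | hO
    · unfold ty' at hty
      rw [if_pos hI] at hty
      split_ifs at hty with h1 h2
      have h3 : ty a l = .al κ := by
        cases h : ty a l <;> rw [h] at hty <;> simp_all
      subst h2
      have h4 := hA.h3 s l κ S.al_EC h3
      unfold F' G'
      rw [if_pos hI, if_pos ⟨rfl, κ, h3⟩, if_neg (fun h => lt_irrefl _ h.1)]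
      exact h4
    · have h1 := S.not_ins hst hO
      unfold ty' at hty
      rw [if_neg h1] at hty
      have h2 := hA.h3 s t κ (S.out_EC hst hO) hty
      unfold F' G'
      rw [if_neg h1, if_neg]
      · exact h2
      · rintro ⟨h3, h4⟩
        have := S.lt' hst.1
        rcases hO with hO | hO <;> linarith
  · intro s t κ hst hty
    rcases S.dich hst with hI | hO
    · unfold ty' at hty
      rw [if_pos hI] at hty
      split_ifs at hty with h1 h2
      · subst h1
        have hz := S.z_eq hst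
        subst hz
        have h3 : κs = κ := by simpa using hty
        subst h3
        rw [S.F'_zb]
        unfold G'
        rw [if_neg (fun h => lt_irrefl _ h.2)]
        exact ⟨hκ1, hκ2⟩
      · cases h : ty a l <;> rw [h] at hty <;> simp_all
    · have h1 := S.not_ins hst hO
      unfold ty' at hty
      rw [if_neg h1] at hty
      have h2 := hA.h4 s t κ (S.out_EC hst hO) hty
      unfold F' G'
      rw [if_neg h1, if_neg]
      · exact h2
      · rintro ⟨h3, h4⟩
        have := S.lt' hst.1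
        rcases hO with hO | hO <;> linarith



/-- An element in the gap of an edge of the chain inside the face is strictly inside. -/
theorem ins_of_mid {s t v : V} (h : EC C' E' s t) (hv : β a < β v ∧ β v < β b)
    (h1 : β s ≤ β v) (h2 : β v ≤ β t) : Ins β a b s t := by
  rcases S.dich h with hI | hO
  · exact hI
  · rcases hO with hO | hO <;> linarith [hv.1, hv.2]

section Key

variable {ty : V → V → Ty K} {F : V → V → Finset (Fin K)} {G : V → Finset (Fin K)}
  {κs : Fin K} {c' : V → V → Col K}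

/-- Colours of the old edges with an end strictly inside the face. -/
theorem key (hA : Adm L W C E β ty F G) (hκ1 : κs ∉ F a l ∪ own (ty a l))
    (hR : Req W' C' E' β (ty' β a b l ty κs) (F' β a b l ty F) (G' β a b l ty F G) c')
    {p q : V} (hpq : E' p q) (hm : Mid W' β a b p ∨ Mid W' β a b q) :
    (∀ κ, c' p q = .lg κ → κ ∉ F a l) ∧
    (∀ κ, ty a l = .al κ → c' p q = .lg κ → p = a) ∧
    (∀ κ, ty a l = .om κ → c' p q ≠ .lg κ) ∧
    (c' p q = .st → β a ≤ β p ∧ β q < β b) ∧
    (∀ κ, ty a l = .al κ → c' p q = .st → p ≠ a) := by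
  have hab := S.ab
  have hlt := S.lt' hpq
  have hWp := (S.EE' p q hpq).2.1
  have hWq := (S.EE' p q hpq).2.2
  by_cases hC : C' p ∧ C' q
  · -- an edge of the chain
    have hec : EC C' E' p q := ⟨hpq, hC.1, hC.2⟩
    have hI : Ins β a b p q := by
      rcases hm with ⟨_, h1, h2⟩ | ⟨_, h1, h2⟩
      · exact S.ins_of_mid hec ⟨h1, h2⟩ le_rfl hlt.le
      · exact S.ins_of_mid hec ⟨h1, h2⟩ hlt.le le_rfl
    have hce := hR.ce p q hec
    have hA3 := fun κ => hA.h3 a l κ S.al_EC
    have hty : (q = b ∧ ty' β a b l ty κs p q = .om κs) ∨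
        (q ≠ b ∧ p = a ∧ ∃ κ, ty a l = .al κ ∧ ty' β a b l ty κs p q = .al κ) ∨
        (q ≠ b ∧ ty' β a b l ty κs p q = .sh ∧ (p = a → ∀ κ, ty a l ≠ .al κ)) := by
      unfold ty'
      rw [if_pos hI]
      by_cases h1 : q = b
      · left
        exact ⟨h1, by rw [if_pos h1]⟩
      · rw [if_neg h1]
        by_cases h2 : p = a
        · rw [if_pos h2]
          cases h : ty a l with
          | sh => exact Or.inr (Or.inr ⟨h1, rfl, by simp⟩)
          | al κ => exact Or.inr (Or.inl ⟨h1, h2, κ, rfl, rfl⟩)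
          | om κ => exact Or.inr (Or.inr ⟨h1, rfl, by simp⟩)
        · rw [if_neg h2]
          exact Or.inr (Or.inr ⟨h1, rfl, fun h => absurd h h2⟩)
    have hqb : q ≠ b → β q < β b := by
      intro h
      rcases lt_or_eq_of_le hI.2 with h1 | h1
      · exact h1
      · exact absurd (S.inj' hWq (S.CW _ S.cb) h1) h
    rcases hty with ⟨h1, h2⟩ | ⟨h1, h2, κ1, h3, h4⟩ | ⟨h1, h2, h3⟩
    · refine ⟨?_, ?_, ?_, ?_, ?_⟩
      · intro κ hc
        rw [hce, h2] at hc
        have h5 : κ = κs := by
          rcases colC_lg hc with h6 | h6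
          · simp at h6
          · simpa using h6.symm
        rw [h5]
        exact fun h => hκ1 (Finset.mem_union_left _ h)
      · intro κ h6 hc
        rw [hce, h2] at hc
        have h5 : κ = κs := by
          rcases colC_lg hc with h6 | h6
          · simp at h6
          · simpa using h6.symm
        exfalso
        apply hκ1
        rw [h6, h5]
        simp [own]
      · intro κ h6 hc
        rw [hce, h2] at hc
        have h5 : κ = κs := by
          rcases colC_lg hc with h6 | h6
          · simp at h6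
          · simpa using h6.symm
        apply hκ1
        rw [h6, h5]
        simp [own]
      · intro hc
        rw [hce, h2] at hc
        have := colC_st hc
        simp at this
      · intro κ _ hc
        rw [hce, h2] at hc
        have := colC_st hc
        simp at this
    · refine ⟨?_, ?_, ?_, ?_, ?_⟩
      · intro κ hc
        rw [hce, h4] at hc
        have h5 : κ = κ1 := by
          rcases colC_lg hc with h6 | h6
          · simpa using h6.symm
          · simp at h6
        rw [h5]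
        exact (hA3 κ1 h3).1
      · intro _ _ _
        exact h2
      · intro κ h6
        rw [h3] at h6
        simp at h6
      · intro hc
        rw [hce, h4] at hc
        have := colC_st hc
        simp at this
      · intro κ _ hc
        rw [hce, h4] at hc
        have := colC_st hc
        simp at this
    · refine ⟨?_, ?_, ?_, ?_, ?_⟩
      · intro κ hc
        rw [hce, h2] at hc
        rcases colC_lg hc with h6 | h6 <;> simp at h6
      · intro κ _ hc
        rw [hce, h2] at hc
        rcases colC_lg hc with h6 | h6 <;> simp at h6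
      · intro κ _ hc
        rw [hce, h2] at hc
        rcases colC_lg hc with h6 | h6 <;> simp at h6
      · intro _
        exact ⟨hI.1, hqb h1⟩
      · intro κ h6 _ h7
        exact h3 h7 κ h6
  · have hen : EN C' E' p q := ⟨hpq, hC⟩
    -- an end in a gap of an inner edge, or an end which is an inner vertex of the chain
    have hcase : (∃ v, (v = p ∨ v = q) ∧ C' v ∧ β a < β v ∧ β v < β b) ∨
        (∃ s t, EC C' E' s t ∧ Ins β a b s t ∧ (Gap W' β s t p ∨ Gap W' β s t q)) := by
      have hm' : ∃ v, (v = p ∨ v = q) ∧ Mid W' β a b v := by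
        rcases hm with h | h
        · exact ⟨p, Or.inl rfl, h⟩
        · exact ⟨q, Or.inr rfl, h⟩
      obtain ⟨v, hv, hv1, hv2, hv3⟩ := hm'
      by_cases h1 : C' v
      · exact Or.inl ⟨v, hv, h1, hv2, hv3⟩
      · obtain ⟨s, t, h2, h3⟩ := S.cov v hv1 h1
        refine Or.inr ⟨s, t, h2, S.ins_of_mid h2 ⟨hv2, hv3⟩ h3.2.1.le h3.2.2.le, ?_⟩
        rcases hv with rfl | rfl
        · exact Or.inl h3
        · exact Or.inr h3
    have hGv : ∀ v, β a < β v → β v < β b →
        G' β a b l ty F G v = F a l ∪ own (ty a l) := by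
      intro v h1 h2
      unfold G'
      rw [if_pos ⟨h1, h2⟩]
    have hr2 := hR.r2 p q
    have hlong : ∀ κ, c' p q = .lg κ → κ ∉ F a l ∪ own (ty a l) ∨
        (∃ s t, EC C' E' s t ∧ Ins β a b s t ∧ (Gap W' β s t p ∨ Gap W' β s t q)) := by
      intro κ hc
      rcases hcase with ⟨v, hv, hv1, hv2, hv3⟩ | h
      · left
        have h4 := hr2 κ hen hc
        rw [← hGv v hv2 hv3]
        rcases hv with rfl | rfl
        · exact h4.1 hv1
        · exact h4.2 hv1
      · exact Or.inr h
    -- a short edge: both ends in the closed interval of an inner edge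
    have hst : c' p q = .st → ∃ s t, EC C' E' s t ∧ Ins β a b s t ∧
        (Gap W' β s t p ∨ Gap W' β s t q) ∧ β s ≤ β p ∧ β q ≤ β t := by
      intro hc
      have h1 : ∃ v, (v = p ∨ v = q) ∧ W' v ∧ ¬ C' v := by
        by_cases h2 : C' p
        · exact ⟨q, Or.inr rfl, hWq, fun h => hC ⟨h2, h⟩⟩
        · exact ⟨p, Or.inl rfl, hWp, h2⟩
      obtain ⟨v, hv, hv1, hv2⟩ := h1
      obtain ⟨s, t, h2, h3⟩ := S.cov v hv1 hv2
      have h4 : Gap W' β s t p ∨ Gap W' β s t q := by
        rcases hv with rfl | rfl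
        · exact Or.inl h3
        · exact Or.inr h3
      have h5 := hR.r5 p q s t hen hc h2 h4
      refine ⟨s, t, h2, ?_, h4, h5⟩
      rcases hm with ⟨_, h6, h7⟩ | ⟨_, h6, h7⟩
      · exact S.ins_of_mid h2 ⟨h6, h7⟩ h5.1 (by linarith [h5.2])
      · exact S.ins_of_mid h2 ⟨h6, h7⟩ (by linarith [h5.1]) h5.2
    refine ⟨?_, ?_, ?_, ?_, ?_⟩
    · intro κ hc h1
      rcases hlong κ hc with h2 | ⟨s, t, h2, h3, h4⟩
      · exact h2 (Finset.mem_union_left _ h1)
      · exact hR.r1 p q κ s t hen hc h2 h4 (F'_sub ty F h3 h1)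
    · intro κ h1 hc
      rcases hlong κ hc with h2 | ⟨s, t, h2, h3, h4⟩
      · exact absurd (Finset.mem_union_right _ (by rw [h1]; simp [own])) h2
      · by_cases h5 : s = a
        · have h6 : t ≠ b := by
            intro h6
            subst h5 h6
            exact absurd (S.not_ab h2) (lt_irrefl _)
          have h7 : ty' β a b l ty κs s t = .al κ := by
            unfold ty'
            rw [if_pos h3, if_neg h6, if_pos h5, h1]
          rw [← h5]
          exact hR.r3 p q κ s t hen hc h2 h4 h7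
        · exfalso
          apply hR.r1 p q κ s t hen hc h2 h4
          unfold F'
          rw [if_pos h3, if_neg (fun h => h5 h.1), h1]
          simp [own]
    · intro κ h1 hc
      rcases hlong κ hc with h2 | ⟨s, t, h2, h3, h4⟩
      · exact absurd (Finset.mem_union_right _ (by rw [h1]; simp [own])) h2
      · apply hR.r1 p q κ s t hen hc h2 h4
        unfold F'
        rw [if_pos h3, if_neg (fun h => by rw [h1] at h; simp at h), h1]
        simp [own]
    · intro hc
      obtain ⟨s, t, h2, h3, h4, h5, h6⟩ := hst hc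
      refine ⟨by linarith [h3.1], ?_⟩
      by_cases h7 : t = b
      · subst h7
        have h8 := hR.r7 p q κs s t hen hc h2 h4 (S.ty'_b h3)
        rcases lt_or_eq_of_le h6 with h9 | h9
        · exact h9
        · exact absurd (S.inj' hWq (S.CW _ S.cb) h9) h8
      · have h8 : β t < β b := by
          rcases lt_or_eq_of_le h3.2 with h9 | h9
          · exact h9
          · exact absurd (S.inj' (S.CW _ h2.2.2) (S.CW _ S.cb) h9) h7
        linarith
    · intro κ h1 hc hpa
      obtain ⟨s, t, h2, h3, h4, h5, h6⟩ := hst hc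
      have hsa : s = a := by
        apply S.inj' (S.CW _ h2.2.1) (S.CW _ S.ca)
        rw [hpa] at h5
        exact le_antisymm h5 h3.1
      have h7 : t ≠ b := by
        intro h7
        subst hsa h7
        exact absurd (S.not_ab h2) (lt_irrefl _)
      have h8 : ty' β a b l ty κs s t = .al κ := by
        unfold ty'
        rw [if_pos h3, if_neg h7, if_pos hsa, h1]
      exact hR.r6 p q κ s t hen hc h2 h4 h8 (by rw [hpa, hsa])

end Key


open Classical in
/-- The step. -/
theorem step (hK : 2 * L ≤ K + 1) (h : Ext K L W' C' E' β) : Ext K L W C E β := by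
  intro ty F G hA
  have hab := S.ab
  have hAlt := S.A_lt hA
  have hCb : C b := by
    rw [S.CC]
    exact Or.inl ⟨S.cb, Or.inr le_rfl⟩
  obtain ⟨κs, hκ⟩ : ∃ κs : Fin K, κs ∉ F a l ∪ own (ty a l) ∪ G b := by
    by_contra hcon
    push Not at hcon
    have h1 : (Finset.univ : Finset (Fin K)) ⊆ F a l ∪ own (ty a l) ∪ G b :=
      fun κ _ => hcon κ
    have h2 := Finset.card_le_card h1
    rw [Finset.card_univ, Fintype.card_fin] at h2
    have h3 := Finset.card_union_le (F a l ∪ own (ty a l)) (G b)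
    have h4 := hA.h2 b hCb
    omega
  have hκ1 : κs ∉ F a l ∪ own (ty a l) := fun h => hκ (Finset.mem_union_left _ h)
  have hκ2 : κs ∉ G b := fun h => hκ (Finset.mem_union_right _ h)
  obtain ⟨c', hR⟩ := h _ _ _ (S.adm' hA hκ1 hκ2)
  have hkey := fun p q => S.key (p := p) (q := q) hA hκ1 hR
  have hWp : ∀ p q, E' p q → W' p ∧ W' q := fun p q h => (S.EE' p q h).2
  -- old edges and new edges
  have hold : ∀ p q, E p q → ¬ (Λ p ∨ Λ q) → E' p q := by
    intro p q h1 h2
    push Not at h2
    have h3 := S.EW p q h1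
    rw [S.WW, S.WW] at h3
    exact S.EE p q h1 (h3.1.resolve_right h2.1) (h3.2.resolve_right h2.2)
  have hgapnew : ∀ s t, E s t → (Λ s ∨ Λ t) → (s = a ∧ t = l) ∨ ∀ v, ¬ Gap W β s t v := by
    intro s t h1 h2
    rcases (S.new s t h1 h2).2.2 with h3 | h3
    · exact Or.inl h3
    · exact Or.inr (fun v hv => h3 v hv.1 hv.2)
  have hmid : ∀ v, W' v → Gap W β a l v → Mid W' β a b v := by
    intro v _ h2
    exact (S.gap_al v).mp h2
  let c : V → V → Col K := fun p q => if Λ p ∨ Λ q then colC (ty p q) (N W β p q) else c' p q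
  have hcold : ∀ p q, ¬ (Λ p ∨ Λ q) → c p q = c' p q := fun p q h => if_neg h
  have hcnew : ∀ p q, (Λ p ∨ Λ q) → c p q = colC (ty p q) (N W β p q) := fun p q h => if_pos h
  -- edges of the old chain in the new chain, outside the face
  have hEN : ∀ p q, EN C E p q → E' p q ∧ ¬ (Λ p ∨ Λ q) := by
    rintro p q ⟨h1, h2⟩
    have h3 : ¬ (Λ p ∨ Λ q) := fun h3 => h2 ⟨(S.new p q h1 h3).1, (S.new p q h1 h3).2.1⟩
    exact ⟨hold p q h1 h3, h3⟩
  -- for an edge of the chain `C` and a gap containing an end of an edge outside `C`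
  have hgap : ∀ p q s t, EN C E p q → EC C E s t → (Gap W β s t p ∨ Gap W β s t q) →
      ((s = a ∧ t = l) ∧ (Mid W' β a b p ∨ Mid W' β a b q)) ∨
      (EC C' E' s t ∧ (β t ≤ β a ∨ β b ≤ β s) ∧ EN C' E' p q ∧
        (Gap W' β s t p ∨ Gap W' β s t q)) := by
    intro p q s t h1 h2 h3
    obtain ⟨h4, h5⟩ := hEN p q h1
    have h6 := hWp p q h4
    by_cases h7 : Λ s ∨ Λ t
    · left
      rcases hgapnew s t h2.1 h7 with h8 | h8
      · obtain ⟨rfl, rfl⟩ := h8
        refine ⟨⟨rfl, rfl⟩, ?_⟩
        rcases h3 with h3 | h3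
        · exact Or.inl (hmid p h6.1 h3)
        · exact Or.inr (hmid q h6.2 h3)
      · rcases h3 with h3 | h3
        · exact absurd h3 (h8 p)
        · exact absurd h3 (h8 q)
    · right
      push Not at h7
      obtain ⟨h8, h9⟩ := S.old h2 h7.1 h7.2
      have h10 : Gap W' β s t p ∨ Gap W' β s t q := by
        rw [← S.gap_out h9, ← S.gap_out h9]
        exact h3
      refine ⟨h8, h9, ⟨h4, ?_⟩, h10⟩
      rintro ⟨h11, h12⟩
      rcases h10 with h10 | h10
      · exact S.cons s t h8.1 h8.2.1 h8.2.2 p h11 h10.2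
      · exact S.cons s t h8.1 h8.2.1 h8.2.2 q h12 h10.2
  have hout : ∀ s t, EC C' E' s t → (β t ≤ β a ∨ β b ≤ β s) →
      ty' β a b l ty κs s t = ty s t ∧ F' β a b l ty F s t = F s t := by
    intro s t h1 h2
    unfold ty' F'
    rw [if_neg (S.not_ins h1 h2), if_neg (S.not_ins h1 h2)]
    exact ⟨rfl, rfl⟩
  -- the colour of the new slot edge against old edges
  have hslot : ∀ p q, E' p q → c' p q = colC (ty a l) (N W β a l) →
      (Mid W' β a b p ∨ Mid W' β a b q) → p = a ∨ (β a ≤ β p ∧ β q < β b) := by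
    intro p q h1 h2 h3
    have h4 := hkey p q h1 h3
    have h5 : N W β a l ≠ 0 := by
      have := S.N_ge
      omega
    obtain ⟨n, hn⟩ := Nat.exists_eq_succ_of_ne_zero h5
    rw [hn] at h2
    cases h6 : ty a l with
    | sh =>
      rw [h6] at h2
      exact Or.inr (h4.2.2.2.1 h2)
    | al κ =>
      rw [h6] at h2
      exact Or.inl (h4.2.1 κ h6 h2)
    | om κ =>
      rw [h6] at h2
      exact absurd h2 (h4.2.2.1 κ h6)
  refine ⟨c, ?_, ?_, ?_, ?_, ?_, ?_, ?_, ?_, ?_⟩
  · -- ce
    intro s t hst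
    by_cases h1 : Λ s ∨ Λ t
    · exact hcnew s t h1
    · rw [hcold s t h1]
      push Not at h1
      obtain ⟨h2, h3⟩ := S.old hst h1.1 h1.2
      rw [hR.ce s t h2, (hout s t h2 h3).1, N_eq (S.gap_out h3)]
  · -- c0
    intro p q p' q' h1 h2 h3 h4
    have w1 := S.EW p q h1
    have w2 := S.EW p' q' h2
    have hl := S.pos l S.ll
    by_cases h5 : Λ p ∨ Λ q <;> by_cases h6 : Λ p' ∨ Λ q'
    · rcases (S.new p q h1 h5).2.2 with ⟨rfl, rfl⟩ | h7
      · rcases (S.new p' q' h2 h6).2.2 with ⟨rfl, rfl⟩ | h8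
        · exact lt_irrefl _ h4.1
        · exact h8 q w1.2 h4.2
      · exact h7 p' w2.1 ⟨h4.1, h4.2.1⟩
    · rcases (S.new p q h1 h5).2.2 with ⟨rfl, rfl⟩ | h7
      · rw [hcnew p q h5, hcold p' q' h6] at h3
        have h7 := hold p' q' h2 h6
        have h8 := hWp p' q' h7
        have h9 : Mid W' β p b p' := ⟨h8.1, h4.1, by linarith [hl.2]⟩
        rcases hslot p' q' h7 h3.symm (Or.inl h9) with h10 | h10
        · rw [h10] at h4
          exact lt_irrefl _ h4.1
        · have := S.last q q' S.ll h8.2 h10.2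
          linarith [h4.2.2]
      · exact h7 p' w2.1 ⟨h4.1, h4.2.1⟩
    · rcases (S.new p' q' h2 h6).2.2 with ⟨rfl, rfl⟩ | h7
      · rw [hcold p q h5, hcnew p' q' h6] at h3
        have h7 := hold p q h1 h5
        have h8 := hWp p q h7
        have h9 : Mid W' β p' b q := ⟨h8.2, h4.2.1, by linarith [hl.2]⟩
        rcases hslot p q h7 h3 (Or.inr h9) with h10 | h10
        · rw [h10] at h4
          exact lt_irrefl _ h4.1
        · linarith [h4.1, h10.1]
      · exact h7 q w1.2 h4.2
    · rw [hcold p q h5, hcold p' q' h6] at h3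
      exact hR.c0 p q p' q' (hold p q h1 h5) (hold p' q' h2 h6) h3 h4
  · -- r1
    intro p q κ s t h1 h2 h3 h4
    obtain ⟨e1, e2⟩ := hEN p q h1
    rw [hcold p q e2] at h2
    rcases hgap p q s t h1 h3 h4 with ⟨⟨rfl, rfl⟩, h6⟩ | ⟨h5, h6, h7, h8⟩
    · exact (hkey p q e1 h6).1 κ h2
    · rw [← (hout s t h5 h6).2]
      exact hR.r1 p q κ s t h7 h2 h5 h8
  · -- r2
    intro p q κ h1 h2
    obtain ⟨e1, e2⟩ := hEN p q h1
    rw [hcold p q e2] at h2
    push Not at e2
    have hG : ∀ v, C v → ¬ Λ v → G' β a b l ty F G v = G v := by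
      intro v h3 h4
      rw [S.CC] at h3
      rcases h3 with ⟨_, h3⟩ | h3
      · unfold G'
        rw [if_neg]
        rintro ⟨h5, h6⟩
        rcases h3 with h3 | h3 <;> linarith
      · exact absurd h3 h4
    have hC' : ∀ v, C v → ¬ Λ v → C' v ∧ (β v ≤ β a ∨ β b ≤ β v) := by
      intro v h3 h4
      rw [S.CC] at h3
      rcases h3 with h3 | h3
      · exact h3
      · exact absurd h3 h4
    by_cases h3 : C' p ∧ C' q
    · have h4 : EC C' E' p q := ⟨e1, h3.1, h3.2⟩
      have h5 : Ins β a b p q := by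
        rcases S.dich h4 with h5 | h5
        · exact h5
        · exact absurd (S.out_EC h4 h5).2 h1.2
      have h6 := hR.ce p q h4
      rw [h6] at h2
      have hlt := S.lt' e1
      constructor
      · intro h7
        obtain ⟨h8, h9⟩ := hC' p h7 e2.1
        have h10 : p = a := by
          apply S.inj' (S.CW _ h8) (S.CW _ S.ca)
          rcases h9 with h9 | h9
          · exact le_antisymm h9 h5.1
          · linarith [h5.2]
        subst h10
        have h11 : q ≠ b := by
          intro h11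
          subst h11
          exact absurd (S.not_ab h4) (lt_irrefl _)
        unfold ty' at h2
        rw [if_pos h5, if_neg h11, if_pos rfl] at h2
        cases h12 : ty p l with
        | sh =>
          rw [h12] at h2
          rcases colC_lg h2 with h13 | h13 <;> simp at h13
        | al κ1 =>
          rw [h12] at h2
          have h13 : κ1 = κ := by
            rcases colC_lg h2 with h13 | h13
            · simpa using h13
            · simp at h13
          subst h13
          exact (hA.h3 p l κ1 S.al_EC h12).2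
        | om κ1 =>
          rw [h12] at h2
          rcases colC_lg h2 with h13 | h13 <;> simp at h13
      · intro h7
        obtain ⟨h8, h9⟩ := hC' q h7 e2.2
        have h10 : q = b := by
          apply S.inj' (S.CW _ h8) (S.CW _ S.cb)
          rcases h9 with h9 | h9
          · linarith [h5.1]
          · exact le_antisymm h5.2 h9
        subst h10
        rw [S.ty'_b h5] at h2
        have h13 : κs = κ := by
          rcases colC_lg h2 with h13 | h13
          · simp at h13
          · simpa using h13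
        rw [← h13]
        exact hκ2
    · have h4 := hR.r2 p q κ ⟨e1, h3⟩ h2
      constructor
      · intro h5
        rw [← hG p h5 e2.1]
        exact h4.1 (hC' p h5 e2.1).1
      · intro h5
        rw [← hG q h5 e2.2]
        exact h4.2 (hC' q h5 e2.2).1
  · -- r3
    intro p q κ s t h1 h2 h3 h4 h5
    obtain ⟨e1, e2⟩ := hEN p q h1
    rw [hcold p q e2] at h2
    rcases hgap p q s t h1 h3 h4 with ⟨⟨rfl, rfl⟩, h6⟩ | ⟨h6, h7, h8, h9⟩
    · exact (hkey p q e1 h6).2.1 κ h5 h2
    · exact hR.r3 p q κ s t h8 h2 h6 h9 (by rw [(hout s t h6 h7).1, h5])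
  · -- r4
    intro p q κ s t h1 h2 h3 h4 h5
    obtain ⟨e1, e2⟩ := hEN p q h1
    rw [hcold p q e2] at h2
    rcases hgap p q s t h1 h3 h4 with ⟨⟨rfl, rfl⟩, h6⟩ | ⟨h6, h7, h8, h9⟩
    · exact absurd h2 ((hkey p q e1 h6).2.2.1 κ h5)
    · exact hR.r4 p q κ s t h8 h2 h6 h9 (by rw [(hout s t h6 h7).1, h5])
  · -- r5
    intro p q s t h1 h2 h3 h4
    obtain ⟨e1, e2⟩ := hEN p q h1
    rw [hcold p q e2] at h2
    rcases hgap p q s t h1 h3 h4 with ⟨⟨rfl, rfl⟩, h6⟩ | ⟨h6, h7, h8, h9⟩
    · have h7 := (hkey p q e1 h6).2.2.2.1 h2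
      exact ⟨h7.1, (S.last t q S.ll (hWp p q e1).2 h7.2).le⟩
    · exact hR.r5 p q s t h8 h2 h6 h9
  · -- r6
    intro p q κ s t h1 h2 h3 h4 h5
    obtain ⟨e1, e2⟩ := hEN p q h1
    rw [hcold p q e2] at h2
    rcases hgap p q s t h1 h3 h4 with ⟨⟨rfl, rfl⟩, h6⟩ | ⟨h6, h7, h8, h9⟩
    · exact (hkey p q e1 h6).2.2.2.2 κ h5 h2
    · exact hR.r6 p q κ s t h8 h2 h6 h9 (by rw [(hout s t h6 h7).1, h5])
  · -- r7
    intro p q κ s t h1 h2 h3 h4 h5
    obtain ⟨e1, e2⟩ := hEN p q h1
    rw [hcold p q e2] at h2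
    rcases hgap p q s t h1 h3 h4 with ⟨⟨rfl, rfl⟩, h6⟩ | ⟨h6, h7, h8, h9⟩
    · intro h7
      rw [h7] at e2
      exact e2 (Or.inr S.ll)
    · exact hR.r7 p q κ s t h8 h2 h6 h9 (by rw [(hout s t h6 h7).1, h5])

end Stp

end

end Pool.Agent.Helper80.Log
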